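import Mathlib
import Pool.Agent.Lib.MP_ca2859_nt.GR.E1
import Pool.Agent.Lib.MP_ca2859_nt.GR.Fin
import Pool.Agent.Lib.MP_ca2859_nt.GR.T34

/-!
# Fixed field theorem (few closed Weierstrass points): definitions
-/

open Polynomial WithZero IsDedekindDomain NumberField

namespace Pool.Agent.Lib.MP_ca2859_nt.FF

section
variable {K : Type} [Field K]

/-- all irreducible factors of `f` have degree at most `D` -/
def DegLe (D : ℕ) (f : K[X]) : Prop := ∀ p : K[X], Irreducible p → p ∣ f → p.natDegree ≤ D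

/-- the number of irreducible factors of `f` (with multiplicity) -/
noncomputable def nfac (f : K[X]) : ℕ :=
  Multiset.card (UniqueFactorizationMonoid.factors f)

/-- the product of the polynomials in `J` -/
noncomputable def fJ (J : Finset K[X]) : K[X] := ∏ p ∈ J, p

/-- The elliptic curve `y² = ∏ (x - e θ)`, `θ` running through `r₁r₂+r₃r₄`, `r₁r₃+r₂r₄`,
`r₁r₄+r₂r₃` for the roots `r₁, …, r₄` of the monic quartic `q`: the twist by `e` of the Jacobian
of `y² = q(x)`. -/
noncomputable def EQ (q : K[X]) (e : K) : WeierstrassCurve K :=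
  ⟨0, -(e * q.coeff 2), 0, e ^ 2 * (q.coeff 3 * q.coeff 1 - 4 * q.coeff 0),
    -(e ^ 3 * (q.coeff 1 ^ 2 + q.coeff 3 ^ 2 * q.coeff 0 - 4 * q.coeff 2 * q.coeff 0))⟩

end

/-- the constants of the local inequality -/
noncomputable def bF (g : ℕ) : ℕ := (4 * g + 3) ^ 2 * (8 * g * (2 * g + 1)) * (2 * g - 1)

noncomputable def cF (g : ℕ) : ℕ :=
  2 ^ ((4 * g + 3) ^ 2 * (4 * g) + bF g * (4 * g + 8)) * cst g

end Pool.Agent.Lib.MP_ca2859_nt.FF
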