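import Pool.Agent.Lib.MP_ca2859_nt.FF.Defs

/-!
# Fixed field theorem (few closed Weierstrass points): statements of the pieces

PLAN. `C : y² = f(x)`, `deg f = 2g+2`, `f = C a * ∏ (X - α_j)` over `L`. For a set `T` of roots,
stable under Galois (a product `q` of irreducible factors of `f`), with `#T = 2g'+2`, the curve
`C_T : y² = e q(x)`, `e ∈ K*`, and for `#T = 4` the elliptic curve `E_T = EQ q e` (the Jacobian).
(i) COMB: for every splitting `S | Sᶜ` of the roots with `#S, #Sᶜ ≥ 2` there is such a `T` with at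
most four irreducible factors, `#T ≤ max(4, 3D-1)`, meeting `S` and `Sᶜ` in at least two elements.
(ii) GAP: if some cross ratio of the `α_j` has valuation `M` then there is `S` such that all cross
ratios of two elements of `S` and two elements of `Sᶜ` have valuation at least `M/(n-3)`.
(iii) CR6, CR4: cross ratios of the elements of `T` are bounded by the minimal discriminant of
`C_T`, `E_T`. (iv) ASML, ASMG: by `disc_le_cross` the minimal discriminant of `C` is bounded by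
those of the `C_T`, `E_T`. (v) TMC, TME: for a suitable `e` (class group: TW, GLOB; local: LOC6,
LOC60, LOC4, LOC40) `C_T`, `E_T` have good reduction outside the bad places of `C`, the places
above `2 (2g+2)` and those dividing an ideal of norm at most `2^[K:ℚ] |D_K|`.
(vi) G2N, G2F, G2L: the elliptic curve `y² = x(x²+ax+b)` and `y² = x(x²-b)(x²+ax+b)`.

`theorem piece_X (pieces used) : S_X`. Notation: `ord v x` is the additive valuation
(`Pool.Agent.Lib.MP_ca2859_nt.ord`), `w_eq_exp`, `ord_mul`, `ord_pow`, `ord_nonneg`, `ord_div` are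
its rules.
-/

open Polynomial WithZero IsDedekindDomain NumberField
open Pool.Agent.Lib.MP_ca2859_nt Pool.Agent.Lib.MP_ca2859_nt.GR

namespace Pool.Agent.Lib.MP_ca2859_nt.FF

/-! ### combinatorics and ultrametric geometry -/

/-- COMB. Blocks `{j | β j = b}` of size `≤ D`. Proof. Write `s_b`, `c_b` for the number of elements
of the block `b` in `S`, in `Sᶜ`. Take a set `I` of blocks, minimal for inclusion, with
`∑ s_b ≥ 2` and `∑ c_b ≥ 2`. Every block of `I` is `S`-critical (removing it makes `∑ s ≤ 1`) or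
`Sᶜ`-critical. If two different blocks `A, B` are `S`-critical then `s_A = s_B = 1` and all other
`s_b = 0` (`s_B ≤ ∑ s - s_A ≤ 1`, `s_A ≤ 1`, `∑ s = s_A + (∑ s - s_A) ≤ 2`); so there are at most two
`S`-critical blocks, and at most two `Sᶜ`-critical ones; `#I ≤ 4`.
(a) `#I = 4`: two `S`-critical, two `Sᶜ`-critical, all singletons: total 4, done.
(b) total even, `#I ≤ 3`: `#I = 1`: total `≤ D`; `#I = 2`: total `≤ 2D`; `#I = 3`: say `A, B` are
`S`-critical with `s = 1` and the third block `G` has `s = 0`; if two blocks are `Sᶜ`-critical then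
`∑ c = 2`, total 4; otherwise only `G` is `Sᶜ`-critical and `c_A + c_B ≤ 1`, total `≤ D + 3`. Total
even, `≥ 4`: `total = 4` or `total ≤ 3D - 1` (`D ≥ 3` if the total is at least 6: for `#I = 2`
from `6 ≤ 2D`, for `#I = 3` from `6 ≤ D + 3`, and then `2D ≤ 3D-1`, `D + 3 ≤ 3D - 1`).
(c) total odd (so `≥ 5`), `#I ≤ 3`: as `n` is even some block outside `I` has an odd number of
elements `≤ D`; add it: `#I + 1 ≤ 4` blocks, total even. `#I = 1`: total `≤ 2D ≤ 3D - 1`; `#I = 2`: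
the total of `I` is odd and `≤ 2D`, so `≤ 2D - 1`, new total `≤ 3D - 1`; `#I = 3`: total of `I`
`≤ D + 3`, new total `≤ 2D + 3 ≤ 3D - 1` if `D ≥ 4`; for `D = 3`: the total of `I` is odd and `≤ 6`,
so it is 5, new total `≤ 8 = 3D - 1`. For `D = 2`, `#I = 3` (case `#I ≤ 2` has total `≤ 4`): total 5,
`#G = 2`, `G ⊆ Sᶜ`, one of `A, B` has a second element, which is in `Sᶜ`, the other, say `B`, is a
singleton in `S`; the new odd block `H` is a singleton; if `H ⊆ S` take `{B, H, G}` (total 4), if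
`H ⊆ Sᶜ` take `{A, B, H}` (total 4: `s = 2`, `c = 2`). `D = 1`: only `#I = 4`. (And symmetrically
with `S` and `Sᶜ` exchanged.) -/
def S_COMB : Prop := ∀ (n D : ℕ) (ι : Type) [DecidableEq ι] (β : Fin n → ι), Even n → 4 ≤ n →
  (∀ b, (Finset.univ.filter fun j => β j = b).card ≤ D) →
  ∀ S : Finset (Fin n), 2 ≤ S.card → 2 ≤ Sᶜ.card →
  ∃ J : Finset ι, J ⊆ Finset.univ.image β ∧ J.card ≤ 4 ∧
    (∃ g' : ℕ, 1 ≤ g' ∧ (Finset.univ.filter fun j => β j ∈ J).card = 2 * g' + 2 ∧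
      (g' = 1 ∨ 2 * g' ≤ 3 * (D - 1))) ∧
    2 ≤ ((Finset.univ.filter fun j => β j ∈ J) ∩ S).card ∧
    2 ≤ ((Finset.univ.filter fun j => β j ∈ J) \ S).card

/-- GAPI. Pigeonhole. Induction on the number of elements of `V` strictly between `a` and `b`: if
there is none take `t = a`, `t' = b`; otherwise choose such an element `c` and use the induction
hypothesis for `V ∩ [a, c]` and `V ∩ [c, b]` (numbers of elements `m₁ + 1`, `m₂ + 1` with
`m₁ + m₂ + 1 ≤ #V`; if both fail for `#V - 1` then `b - a = (c - a) + (b - c) < …`). -/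
def S_GAPI : Prop := ∀ (V : Finset ℤ) (a b : ℤ), a ∈ V → b ∈ V → a < b →
  ∃ t t' : ℤ, a ≤ t ∧ t < t' ∧ t' ≤ b ∧ (∀ x ∈ V, x ≤ t ∨ t' ≤ x) ∧
    b - a ≤ (V.card - 1) * (t' - t)

/-- GAP. Put `z(x) = (α x - α i) / (α x - α j)` for `x ≠ j` (so `z(i) = 0`; `j` has `z = ∞`) and
`ψ(x) = ord (α x - α i) - ord (α x - α j)` for `x ≠ i, j`. From
`(α i - α l)(α j - α k) = (α i - α k)(α j - α l) - (α i - α j)(α k - α l)` and `M > 0`:
`ord ((α i - α l)(α j - α k)) = ord ((α i - α j)(α k - α l))`, so `ψ(k) - ψ(l) = M`. GAPI for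
`V = {ψ(x)}`, `#V ≤ n - 2`: `t < t'` between `ψ(l)` and `ψ(k)` with `M ≤ (n - 3) (t' - t)`. Take
`S = {i} ∪ {x ≠ i, j | t' ≤ ψ(x)}`. `z(x) - z(y) = (α x - α y)(α i - α j) / ((α x - α j)(α y - α j))`,
so for `i', k' ∈ S`, `j', l' ∉ S` (all `≠ j`) the difference of orders in the claim is
`ord (z i' - z k') + ord (z j' - z l') - ord (z i' - z j') - ord (z k' - z l')`, where
`ord (z i' - z k') ≥ t'`, `ord (z i' - z j') = ψ(j')`, `ord (z k' - z l') = ψ(l')` (ultrametric,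
`ψ(j'), ψ(l') ≤ t < t'`) and `ord (z j' - z l') ≥ min (ψ(j'), ψ(l'))`: the sum is at least
`t' - max (ψ(j'), ψ(l')) ≥ t' - t`. If `l' = j` it is `ord (z i' - z k') - ord (z i' - z j') ≥ t' - t`,
similarly for `j' = j`. -/
def S_GAP : Prop := ∀ (L : Type) [Field L] (w : Valuation L ℤᵐ⁰) (n : ℕ) (α : Fin n → L),
  Function.Injective α → ∀ i j k l : Fin n, i ≠ j → i ≠ k → i ≠ l → j ≠ k → j ≠ l → k ≠ l →
  ∀ M : ℤ, 0 < M →
  ord w ((α i - α k) * (α j - α l)) = ord w ((α i - α j) * (α k - α l)) + M →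
  ∃ S : Finset (Fin n), i ∈ S ∧ k ∈ S ∧ j ∉ S ∧ l ∉ S ∧
    ∀ i' ∈ S, ∀ k' ∈ S, i' ≠ k' → ∀ j', j' ∉ S → ∀ l', l' ∉ S → j' ≠ l' →
    M ≤ ((n : ℤ) - 3) * (ord w ((α i' - α k') * (α j' - α l')) -
      ord w ((α i' - α j') * (α k' - α l')))

/-! ### choice of the twist -/

/-- TW. `I = ∏_{v ∈ S} v`; by `NumberField.exists_ideal_in_class_of_norm_le` the class of `I⁻¹`
contains an integral ideal `A` of norm at most `(4/π)^r₂ n!/n^n √|D| ≤ 2^n |D|`; `I A = (e)`,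
`J` = the primes dividing `A`; `∏_{v ∈ J} N v ≤ N A`. For `v ∤ A` the exponent of `v` in `(e)` is
that in `I`. (`HeightOneSpectrum.valuation_of_algebraMap`, `intValuation_if_neg`; `ord_eq_cntx` in
`Lib/MP_ca2859_nt`.) -/
def S_TW : Prop := ∀ (K : Type) [Field K] [NumberField K]
  (S : Finset (HeightOneSpectrum (𝓞 K))), ∃ e : K, e ≠ 0 ∧
  ∃ J : Finset (HeightOneSpectrum (𝓞 K)),
    ∏ v ∈ J, Ideal.absNorm v.asIdeal ≤ 2 ^ Module.finrank ℚ K * (discr K).natAbs ∧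
    ∀ v, v ∉ J → (v ∈ S → ord (v.valuation K) e = 1) ∧ (v ∉ S → ord (v.valuation K) e = 0)

/-- GLOB (from TW): `S` = the places `v ∉ B` of the finite set in (b) for which the `m` of (a) is
odd; for the places `v ∉ B` not in the finite set `ord e = 0` is even. -/
def S_GLOB : Prop := ∀ (K : Type) [Field K] [NumberField K]
  (P : K → HeightOneSpectrum (𝓞 K) → Prop) (B : Finset (HeightOneSpectrum (𝓞 K))),
  (∀ v, v ∉ B → ∃ m : ℤ, ∀ e : K, e ≠ 0 → (∃ k : ℤ, ord (v.valuation K) e = m + 2 * k) → P e v) →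
  {v | ¬ ∀ e : K, e ≠ 0 → (∃ k : ℤ, ord (v.valuation K) e = 2 * k) → P e v}.Finite →
  ∃ e : K, e ≠ 0 ∧ ∃ J : Finset (HeightOneSpectrum (𝓞 K)),
    ∏ v ∈ J, Ideal.absNorm v.asIdeal ≤ 2 ^ Module.finrank ℚ K * (discr K).natAbs ∧
    ∀ v, v ∉ B → v ∉ J → P e v

/-- LOC6. `good_far` (in `GoodD.lean`) gives `c₁, α₀, ρ ∈ K` with `Far`: for
`s j = (α j - α₀)/ρ`, `u j = max 1 (w (s j))` the distances are `w (s i - s j) = u i * u j`. The
polynomial `q.comp (C ρ * X + C α₀) = C (ρ^(2g'+2)) * ∏_{T} (X - s j)` over `L` has coefficients in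
`K` and the maximum of their `w` is `w ρ ^ (2g'+2) * ∏_T u j` (Gauss; `gauss_full` and the trivial
inequality), so this number is `w` of an element of `K`, say of order `m₀` at `v`; put `m = m₀`
(parity of `-m₀`). If `ord_v e = m + 2k` choose `c ∈ K` with `ord_v c = -(m + k)`, then
`P = C (c² e) * q.comp (C ρ * X + C α₀)` is `v`-integral and primitive and its discriminant is
`(leading coeff)^(2n-2) ∏_{i<j} (s i - s j)²` of valuation `(∏ …)^(2n-2) = 1`; so `(P, 0)` is a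
Weierstrass model with unit discriminant of `y² = e q(x)` (`SameCurve` with `(ρ, α₀, 0, 1, c)`,
`f0_zero`, `eqDisc`, `minDiscExp_le`). -/
def S_LOC6 : Prop := ∀ (K : Type) [Field K] [NumberField K] (L : Type) [Field L] [NumberField L]
  [Algebra K L] (g : ℕ), 1 ≤ g → ∀ f : K[X], IsHyperelliptic g f →
  ∀ (v : HeightOneSpectrum (𝓞 K)) (w : HeightOneSpectrum (𝓞 L)), w.asIdeal.LiesOver v.asIdeal →
  discExp g f v = 0 → v.valuation K (2 : K) = 1 → v.valuation K ((2 * g + 2 : ℕ) : K) = 1 →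
  ∀ a : L, a ≠ 0 → ∀ α : Fin (2 * g + 2) → L, Function.Injective α →
  f.map (algebraMap K L) = C a * ∏ j, (X - C (α j)) →
  ∀ (T : Finset (Fin (2 * g + 2))) (q : K[X]) (g' : ℕ), 1 ≤ g' → T.card = 2 * g' + 2 →
  q.map (algebraMap K L) = ∏ j ∈ T, (X - C (α j)) →
  ∃ m : ℤ, ∀ e : K, e ≠ 0 → (∃ k : ℤ, ord (v.valuation K) e = m + 2 * k) →
    discExp g' (C e * q) v = 0

/-- LOC60. Outside a finite set `2`, the discriminant of `q` are units and the coefficients of `q`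
are integral; if `ord e = 2k` choose `c` with `ord c = -k`, the model `(C (c² e) * q, 0)`. -/
def S_LOC60 : Prop := ∀ (K : Type) [Field K] [NumberField K] (q : K[X]) (g' : ℕ), 1 ≤ g' →
  q.Separable → q.natDegree = 2 * g' + 2 →
  {v : HeightOneSpectrum (𝓞 K) | ¬ ∀ e : K, e ≠ 0 → (∃ k : ℤ, ord (v.valuation K) e = 2 * k) →
    discExp g' (C e * q) v = 0}.Finite

/-- LOC4. As LOC6. With `κ ∈ K`, `w κ * ∏_T u j = 1`, `C κ * ∏_T (X - s j) = A₀ X⁴ + A₁ X³ + …` has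
`v`-integral coefficients in `K` and unit discriminant. The cubic with roots `κ θ_i(s)` is
`y³ - A₂ y² + (A₁ A₃ - 4 A₀ A₄) y - (A₀ A₃² + A₁² A₄ - 4 A₀ A₂ A₄)`, `v`-integral, and the
differences of its roots are `κ (s i - s j)(s k - s l)`, of valuation 1. As
`e θ_i(α) = (e ρ² / κ) (κ θ_i(s)) + constant`, the curve `EQ q e` is obtained from
`y² = ∏ (x - κ θ_i(s))` twisted by `e ρ² / κ`; if `ord_v e ≡ ord_v κ` mod 2 write
`e ρ² / κ = u² ε`, `ε` a `v`-unit: `EQ q e` is isomorphic to `y² = ∏ (x - ε κ θ_i(s))`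
(`VariableChange` with `u`, translation). -/
def S_LOC4 : Prop := ∀ (K : Type) [Field K] [NumberField K] (L : Type) [Field L] [NumberField L]
  [Algebra K L] (g : ℕ), 1 ≤ g → ∀ f : K[X], IsHyperelliptic g f →
  ∀ (v : HeightOneSpectrum (𝓞 K)) (w : HeightOneSpectrum (𝓞 L)), w.asIdeal.LiesOver v.asIdeal →
  discExp g f v = 0 → v.valuation K (2 : K) = 1 → v.valuation K ((2 * g + 2 : ℕ) : K) = 1 →
  ∀ a : L, a ≠ 0 → ∀ α : Fin (2 * g + 2) → L, Function.Injective α →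
  f.map (algebraMap K L) = C a * ∏ j, (X - C (α j)) →
  ∀ (T : Finset (Fin (2 * g + 2))) (q : K[X]), T.card = 4 →
  q.map (algebraMap K L) = ∏ j ∈ T, (X - C (α j)) →
  ∃ m : ℤ, ∀ e : K, e ≠ 0 → (∃ k : ℤ, ord (v.valuation K) e = m + 2 * k) →
    discExpE (EQ q e) v = 0

/-- EQD. Over a splitting field the 2-torsion polynomial of `EQ q e` is `4 ∏ (x - e θ_i)`, with
`θ₁ - θ₂ = (r₁ - r₄)(r₂ - r₃)` etc. -/
def S_EQD : Prop := ∀ (K : Type) [Field K] [CharZero K] (q : K[X]), q.Monic → q.natDegree = 4 →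
  q.Separable → ∀ e : K, e ≠ 0 → (EQ q e).Δ ≠ 0

/-- LOC40. Outside a finite set the coefficients of `q` are integral, `(EQ q 1).Δ` is a unit; if
`ord e = 2k`, `c` with `ord c = k`, `e = c² ε`: `EQ q e` is isomorphic to `EQ q ε` (`u = c`). -/
def S_LOC40 : Prop := ∀ (K : Type) [Field K] [NumberField K] (q : K[X]), q.Monic →
  q.Separable → q.natDegree = 4 →
  {v : HeightOneSpectrum (𝓞 K) | ¬ ∀ e : K, e ≠ 0 → (∃ k : ℤ, ord (v.valuation K) e = 2 * k) →
    discExpE (EQ q e) v = 0}.Finite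

/-- TMC (from LOC6, LOC60, GLOB with `B = SB g f`): all bad places of `y² = e q(x)` are in
`SB g f ∪ J`; `prod_SB_le`. (`w` above `v`: `exists_place_above`; `MC_eq_prod`.) -/
def S_TMC : Prop := ∀ (K : Type) [Field K] [NumberField K] (L : Type) [Field L] [NumberField L]
  [Algebra K L] (g : ℕ), 1 ≤ g → ∀ f : K[X], IsHyperelliptic g f →
  ∀ a : L, a ≠ 0 → ∀ α : Fin (2 * g + 2) → L, Function.Injective α →
  f.map (algebraMap K L) = C a * ∏ j, (X - C (α j)) →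
  ∀ (T : Finset (Fin (2 * g + 2))) (q : K[X]) (g' : ℕ), 1 ≤ g' → T.card = 2 * g' + 2 →
  q.map (algebraMap K L) = ∏ j ∈ T, (X - C (α j)) →
  ∃ e : K, e ≠ 0 ∧ IsHyperelliptic g' (C e * q) ∧
    MC g' (C e * q) ≤ (4 * (2 * g + 2)) ^ Module.finrank ℚ K * (discr K).natAbs * MC g f

/-- TME (from LOC4, LOC40, EQD, GLOB with `B = SB g f`). -/
def S_TME : Prop := ∀ (K : Type) [Field K] [NumberField K] (L : Type) [Field L] [NumberField L]
  [Algebra K L] (g : ℕ), 1 ≤ g → ∀ f : K[X], IsHyperelliptic g f →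
  ∀ a : L, a ≠ 0 → ∀ α : Fin (2 * g + 2) → L, Function.Injective α →
  f.map (algebraMap K L) = C a * ∏ j, (X - C (α j)) →
  ∀ (T : Finset (Fin (2 * g + 2))) (q : K[X]), T.card = 4 →
  q.map (algebraMap K L) = ∏ j ∈ T, (X - C (α j)) →
  ∃ e : K, e ≠ 0 ∧ (EQ q e).Δ ≠ 0 ∧
    ME (EQ q e) ≤ (4 * (2 * g + 2)) ^ Module.finrank ℚ K * (discr K).natAbs * MC g f

/-! ### cross ratios are bounded by the discriminant of `C_T` -/

/-- CR6. `cross_bound` (in `GR/A2.lean`) for `C e * q`, whose roots are enumerated by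
`Fin (2g'+2) ≃ T`. -/
def S_CR6 : Prop := ∀ (K : Type) [Field K] [NumberField K] (L : Type) [Field L] [NumberField L]
  [Algebra K L] (v : HeightOneSpectrum (𝓞 K)) (w : HeightOneSpectrum (𝓞 L)),
  w.asIdeal.LiesOver v.asIdeal → ∀ (n : ℕ) (α : Fin n → L), Function.Injective α →
  ∀ (T : Finset (Fin n)) (q : K[X]) (g' : ℕ), 1 ≤ g' → T.card = 2 * g' + 2 →
  q.map (algebraMap K L) = ∏ j ∈ T, (X - C (α j)) → ∀ e : K, e ≠ 0 →
  ∀ i ∈ T, ∀ j ∈ T, ∀ k ∈ T, ∀ l ∈ T, i ≠ j → i ≠ k → i ≠ l → j ≠ k → j ≠ l → k ≠ l →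
  2 * ord (w.valuation L) ((α i - α k) * (α j - α l)) ≤
    2 * ord (w.valuation L) ((α i - α j) * (α k - α l)) +
    (Ideal.ramificationIdx' v.asIdeal w.asIdeal : ℕ) *
      (discExp g' (C e * q) v + (4 * g' + 4) * ord (v.valuation K) (2 : K))

/-- CR4. The 2-torsion polynomial `4x³ + b₂x² + 2b₄x + b₆` of `EQ q e` has the roots `e θ_i`, whose
differences are `± e (α i - α j)(α k - α l)`, …; `cross_bound_infty` (in `GR/A3.lean`) for genus 1
and `two_torsion_hyper` (`discExp 1 (2-torsion polynomial) v ≤ discExpE W v`, in `GR/F6.lean` or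
`GR/F7.lean`, used in `GR/T34.lean`). -/
def S_CR4 : Prop := ∀ (K : Type) [Field K] [NumberField K] (L : Type) [Field L] [NumberField L]
  [Algebra K L] (v : HeightOneSpectrum (𝓞 K)) (w : HeightOneSpectrum (𝓞 L)),
  w.asIdeal.LiesOver v.asIdeal → ∀ (n : ℕ) (α : Fin n → L), Function.Injective α →
  ∀ (T : Finset (Fin n)) (q : K[X]), T.card = 4 →
  q.map (algebraMap K L) = ∏ j ∈ T, (X - C (α j)) → ∀ e : K, e ≠ 0 →
  ∀ i ∈ T, ∀ j ∈ T, ∀ k ∈ T, ∀ l ∈ T, i ≠ j → i ≠ k → i ≠ l → j ≠ k → j ≠ l → k ≠ l →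
  2 * ord (w.valuation L) ((α i - α k) * (α j - α l)) ≤
    2 * ord (w.valuation L) ((α i - α j) * (α k - α l)) +
    (Ideal.ramificationIdx' v.asIdeal w.asIdeal : ℕ) *
      (discExpE (EQ q e) v + 8 * ord (v.valuation K) (2 : K))

/-! ### assembly -/

/-- ASML (from GAP; `disc_le_cross` in `GR/E1.lean`). With `E = e(w|v)`, `o = ord_v 2 ≥ 0`,
`Σ = ∑_{T ∈ 𝒯} d T`: `disc_le_cross` with `M = (2g - 1) E (Σ + (4g + 8) o)`: its hypothesis for a
quadruple with difference of orders `M' > 0`: GAP gives `S`, the hypothesis gives `T ∈ 𝒯` and two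
elements `i', k'` of `T ∩ S`, two elements `j', l'` of `T \ S`:
`2 M' ≤ (2g - 1) 2 (…) ≤ (2g - 1) E (d T + (4g + 8) o)`. Divide by `E`. -/
def S_ASML : Prop := ∀ (K : Type) [Field K] [NumberField K] (L : Type) [Field L] [NumberField L]
  [Algebra K L] (g : ℕ), 1 ≤ g → ∀ f : K[X], IsHyperelliptic g f → f.natDegree = 2 * g + 2 →
  ∀ (v : HeightOneSpectrum (𝓞 K)) (w : HeightOneSpectrum (𝓞 L)), w.asIdeal.LiesOver v.asIdeal →
  ∀ a : L, a ≠ 0 → ∀ α : Fin (2 * g + 2) → L, Function.Injective α →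
  f.map (algebraMap K L) = C a * ∏ j, (X - C (α j)) →
  ∀ 𝒯 : Finset (Finset (Fin (2 * g + 2))),
  (∀ S : Finset (Fin (2 * g + 2)), 2 ≤ S.card → 2 ≤ Sᶜ.card →
    ∃ T ∈ 𝒯, 2 ≤ (T ∩ S).card ∧ 2 ≤ (T \ S).card) →
  ∀ d : Finset (Fin (2 * g + 2)) → ℕ,
  (∀ T ∈ 𝒯, ∀ i ∈ T, ∀ j ∈ T, ∀ k ∈ T, ∀ l ∈ T, i ≠ j → i ≠ k → i ≠ l → j ≠ k → j ≠ l → k ≠ l →
    2 * ord (w.valuation L) ((α i - α k) * (α j - α l)) ≤
    2 * ord (w.valuation L) ((α i - α j) * (α k - α l)) +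
    (Ideal.ramificationIdx' v.asIdeal w.asIdeal : ℕ) *
      (d T + (4 * g + 8) * ord (v.valuation K) (2 : K))) →
  (discExp g f v : ℤ) ≤ (2 * g + 1) * (g + 3) + ord (v.valuation K) ((cF g : ℕ) : K) +
    bF g * ∑ T ∈ 𝒯, (d T : ℤ)

/-- ASMG. Product over the bad places of `f`; `prod_cnt_le`, `ord_eq_cnt` for the constant,
`prod_le_PP` (in `GR/Fin.lean`) for `∏_{v ∈ S} N v ^ (d T v) ≤ PP (d T)`; as in
`GR/E3.lean`, `Delta_le_HL`. -/
def S_ASMG : Prop := ∀ (K : Type) [Field K] [NumberField K] (g : ℕ), 1 ≤ g → ∀ f : K[X],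
  IsHyperelliptic g f → ∀ (ι : Type) (𝒯 : Finset ι) (d : ι → HeightOneSpectrum (𝓞 K) → ℕ),
  (∀ T ∈ 𝒯, {v | d T v ≠ 0}.Finite) →
  (∀ v, discExp g f v ≠ 0 → (discExp g f v : ℤ) ≤ (2 * g + 1) * (g + 3) +
    ord (v.valuation K) ((cF g : ℕ) : K) + bF g * ∑ T ∈ 𝒯, (d T v : ℤ)) →
  DeltaC g f ≤ MC g f ^ ((2 * g + 1) * (g + 3)) * cF g ^ Module.finrank ℚ K *
    (∏ T ∈ 𝒯, GR.PP (d T)) ^ bF g

/-- FAC. The roots `α j` of the irreducible factors: `β j = minpoly K (α j)` is the factor of which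
`α j` is a root; `f` is squarefree. -/
def S_FAC : Prop := ∀ (K : Type) [Field K] [NumberField K] [DecidableEq K[X]] (L : Type) [Field L] [NumberField L]
  [Algebra K L] (n : ℕ) (f : K[X]), f.Separable → f.natDegree = n → 1 ≤ n →
  ∀ a : L, a ≠ 0 → ∀ α : Fin n → L, Function.Injective α →
  f.map (algebraMap K L) = C a * ∏ j, (X - C (α j)) →
  ∃ β : Fin n → K[X], (∀ j, Irreducible (β j) ∧ β j ∣ f) ∧
    (∀ j, (Finset.univ.filter fun k => β k = β j).card = (β j).natDegree) ∧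
    ∀ J : Finset K[X], J ⊆ Finset.univ.image β →
      (fJ J).Monic ∧
      (fJ J).map (algebraMap K L) = ∏ j ∈ Finset.univ.filter (fun j => β j ∈ J), (X - C (α j)) ∧
      (∀ e : K, e ≠ 0 → nfac (C e * fJ J) = J.card ∧
        ∀ p : K[X], Irreducible p → p ∣ C e * fJ J → p ∣ f)

/-- FLIP. Let `p` be irreducible, `p ∣ flip g t f`, `β` a root of `p` in an algebraic closure. If
`β = 0` then `p` is associated to `X`. Otherwise `β⁻¹ + t` is a root of `f` (`flip_eval`), of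
degree at most `D` over `K`, and `K(β) = K(β⁻¹ + t)`. -/
def S_FLIP : Prop := ∀ (K : Type) [Field K] [CharZero K] (g D : ℕ) (f : K[X]) (t : K), f ≠ 0 →
  f.natDegree ≤ 2 * g + 2 → 1 ≤ D → DegLe D f → DegLe D (flip g t f)

/-- T2. `D ≤ 2`: `q = q₁ q₂` with monic quadratic `q₁, q₂` over `K` with constant terms `c₁, c₂`
(irreducible quadratic factors, the others in pairs); `e (c₁ + c₂)` is a root of the 2-torsion
polynomial `4x³ + b₂x² + 2b₄x + b₆` of `EQ q e`. `D ≤ 1`: `q` splits, all `e θ_i` are in `K`. -/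
def S_T2 : Prop := ∀ (K : Type) [Field K] [CharZero K] (q : K[X]) (e : K), q.Monic →
  q.natDegree = 4 → e ≠ 0 →
  (DegLe 2 q → ∃ x : K, (EQ q e).twoTorsionPolynomial.toPoly.IsRoot x) ∧
  (DegLe 1 q → (EQ q e).twoTorsionPolynomial.toPoly.Splits)

/-! ### elliptic curves with a rational point of order two and genus two -/

/-- the polynomial `x (x² - b) (x² + a x + b)` -/
noncomputable def fG2 {K : Type} [Field K] (a b : K) : K[X] :=
  X * (X ^ 2 - C b) * (X ^ 2 + C a * X + C b)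

/-- G2N. `x₀` a root of `ψ = 4x³ + b₂x² + 2b₄x + b₆`; `a = 12 x₀ + b₂`, `b = 8 (6 x₀² + b₂ x₀ + b₄)`:
with `X = 4 (x - x₀)`: `16 ψ = X (X² + a X + b)`; `16 b² (a² - 4b) = 2^12 Δ`,
`16 (a² - 3b) = 16 c₄`. Good reduction at `v ∤ 2`: an integral equation with unit
discriminant, `x = u² x' + r`, `x₀' = (x₀ - r)/u²` is a root of `ψ'`, integral as `4` is a unit,
`a' = a/u²`, `b' = b/u⁴` are integral and `b'² (a'² - 4b')` is a unit. Last part:
`minDiscExpE_le_j` (in `GR/F3.lean`); the quantity `ord Δ - 3 ord c₄` is the same for both equations. -/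
def S_G2N : Prop := ∀ (K : Type) [Field K] [NumberField K] (W : WeierstrassCurve K), W.Δ ≠ 0 →
  (∃ x : K, W.twoTorsionPolynomial.toPoly.IsRoot x) → ∃ a b : K, b ≠ 0 ∧ a ^ 2 - 4 * b ≠ 0 ∧
  (∀ v : HeightOneSpectrum (𝓞 K), discExpE W v = 0 → v.valuation K (2 : K) = 1 →
    ∃ u : K, u ≠ 0 ∧ v.valuation K (u ^ 2 * a) ≤ 1 ∧ v.valuation K (u ^ 4 * b) = 1 ∧
      v.valuation K ((u ^ 2 * a) ^ 2 - 4 * (u ^ 4 * b)) = 1) ∧
  (∀ (v : HeightOneSpectrum (𝓞 K)) (J : ℤ), 0 ≤ J →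
    (a ^ 2 - 3 * b = 0 ∨ ord (v.valuation K) (16 * (b ^ 2 * (a ^ 2 - 4 * b))) -
      3 * ord (v.valuation K) (16 * (a ^ 2 - 3 * b)) ≤ J) →
    (discExpE W v : ℤ) ≤ J + 20 +
      40 * (ord (v.valuation K) (2 : K) + ord (v.valuation K) (3 : K)))

/-- G2F. `Res(x, x²-b) = -b`, `Res(x, x²+ax+b) = b`, `Res(x²-b, x²+ax+b) = b (4b - a²)`, so the
discriminant of `fG2 a b` is `2² b^m (a²-4b)³` up to sign. Good reduction: the model
`(fG2 (u²a) (u⁴b), 0)`, `SameCurve` with `(u⁻², 0, 0, 1, u⁵)`: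
`fG2 (u²a) (u⁴b) (x) = u^10 fG2 a b (x/u²)`. -/
def S_G2F : Prop := ∀ (K : Type) [Field K] [NumberField K] (a b : K), b ≠ 0 →
  a ^ 2 - 4 * b ≠ 0 → IsHyperelliptic 2 (fG2 a b) ∧
  ∀ v : HeightOneSpectrum (𝓞 K), v.valuation K (2 : K) = 1 →
    (∃ u : K, u ≠ 0 ∧ v.valuation K (u ^ 2 * a) ≤ 1 ∧ v.valuation K (u ^ 4 * b) = 1 ∧
      v.valuation K ((u ^ 2 * a) ^ 2 - 4 * (u ^ 4 * b)) = 1) → discExp 2 (fG2 a b) v = 0

/-- G2L. In a splitting field `L` of `fG2 a b`, `w | v`, `E = e(w|v)`: roots `0, r₁, r₂, s, -s`.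
`cross_bound_infty` (`GR/A3.lean`, genus 2, `discExp` of degree 5): the orders of `r₁`, `r₂`,
`r₁ - r₂` differ by at most `δ = E (discExp + 12 ord_v 2) / 2` from each other. `b = r₁ r₂`,
`a² - 4b = (r₁ - r₂)²`, `a² - 3b = r₁² - r₁ r₂ + r₂²`; with `m = min` of the three orders
`ord (a² - 3b) ≥ 2m` and `ord (b² (a² - 4b)) ≤ 6 (m + δ)`, but one needs an upper bound of
`ord (Δ) - 3 ord (c₄)`, that is `ord Δ ≤ 6 m + 6 δ` and `ord c₄ ≥ 2m`: this gives
`≤ 6 δ + constants · ord 2 ≤ 3 E (discExp + 12 ord 2) + …`; divide by `E`. -/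
def S_G2L : Prop := ∀ (K : Type) [Field K] [NumberField K] (a b : K), b ≠ 0 →
  a ^ 2 - 4 * b ≠ 0 → ∀ v : HeightOneSpectrum (𝓞 K),
  a ^ 2 - 3 * b = 0 ∨ ord (v.valuation K) (16 * (b ^ 2 * (a ^ 2 - 4 * b))) -
      3 * ord (v.valuation K) (16 * (a ^ 2 - 3 * b)) ≤
    3 * discExp 2 (fG2 a b) v + 40 * ord (v.valuation K) (2 : K)

/-- G2A (from G2N, G2F, G2L; as in `GR/GB/GB17.lean`: `PR_le`, `PP_le_rad`). -/
def S_G2A : Prop := ∃ A : ℕ, ∀ (K : Type) [Field K] [NumberField K]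
    (W : WeierstrassCurve K), W.Δ ≠ 0 → (∃ x : K, W.twoTorsionPolynomial.toPoly.IsRoot x) →
    ∃ f : K[X], IsHyperelliptic 2 f ∧ MC 2 f ≤ A ^ Module.finrank ℚ K * ME W ∧
      DeltaE W ≤ A ^ Module.finrank ℚ K * ME W ^ 20 * DeltaC 2 f ^ 4

end Pool.Agent.Lib.MP_ca2859_nt.FF
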