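import Mathlib
import Pool.Agent.Lib.MP_ca2859_nt.Defs
import Pool.Agent.Lib.MP_ca2859_nt.GR.Defs

/-!
# Hyperelliptic curves of genus `g ≥ 1` over a number field, with their invariants
-/

open Polynomial NumberField
open Pool.Agent.Lib.MP_ca2859_nt Pool.Agent.Lib.MP_ca2859_nt.GR

namespace Pool.Agent.Lib.MP_ca2859_nt.FF

/-- There is a hyperelliptic curve of genus `g` over `K` whose Weierstrass points are the roots of
`f` (and infinity, if `f` has odd degree), with minimal discriminant `Δ` and product of the norms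
of the bad places `M`. Genus `1`: an elliptic curve `W`, `f` is its 2-torsion polynomial, `Δ` and
`M` are the usual `Δ_E`, `M_E`. Genus `g ≥ 2`: the curve `y² = f(x)`. -/
def IsCurve {K : Type} [Field K] [NumberField K] (g : ℕ) (f : K[X]) (Δ M : ℕ) : Prop :=
  (g = 1 ∧ ∃ W : WeierstrassCurve K, W.Δ ≠ 0 ∧ f = W.twoTorsionPolynomial.toPoly ∧
    Δ = DeltaE W ∧ M = ME W) ∨
  (2 ≤ g ∧ IsHyperelliptic g f ∧ Δ = DeltaC g f ∧ M = MC g f)

end Pool.Agent.Lib.MP_ca2859_nt.FF
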