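import Pool.Agent.Lib.MP_ca2859_nt.FF.Asm2
import Pool.Agent.Lib.MP_ca2859_nt.FF.Curve

/-!
# Fixed field theorem: the final form
-/

open Polynomial WithZero IsDedekindDomain NumberField
open Pool.Agent.Lib.MP_ca2859_nt Pool.Agent.Lib.MP_ca2859_nt.GR

namespace Pool.Agent.Lib.MP_ca2859_nt.FF

section cubic
variable {K : Type} [Field K] [CharZero K]

theorem main_cubic_deg (W : WeierstrassCurve K) :
    W.twoTorsionPolynomial.toPoly.natDegree = 3 := by
  apply Cubic.natDegree_of_a_ne_zero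
  change (4 : K) ≠ 0
  norm_num

theorem main_cubic_root (W : WeierstrassCurve K)
    (h : ∀ p : K[X], Irreducible p → p ∣ W.twoTorsionPolynomial.toPoly → p.natDegree ≤ 2) :
    ∃ x : K, W.twoTorsionPolynomial.toPoly.IsRoot x := by
  by_contra hcon
  push Not at hcon
  set ψ := W.twoTorsionPolynomial.toPoly with hψ
  have hd : ψ.natDegree = 3 := main_cubic_deg W
  have hψ0 : ψ ≠ 0 := by
    intro h0
    rw [h0, natDegree_zero] at hd
    omega
  have hirr : Irreducible ψ := by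
    rw [irreducible_iff_roots_eq_zero_of_degree_le_three (by omega) (by omega)]
    rw [Multiset.eq_zero_iff_forall_notMem]
    intro x hx
    exact hcon x ((mem_roots hψ0).1 hx)
  have := h ψ hirr dvd_rfl
  omega

theorem main_cubic_le (W : WeierstrassCurve K) (D : ℕ) (hD : 1 ≤ D)
    (h1 : D ≤ 2 → ∃ x : K, W.twoTorsionPolynomial.toPoly.IsRoot x)
    (h2 : D ≤ 1 → W.twoTorsionPolynomial.toPoly.Splits) :
    ∀ p : K[X], Irreducible p → p ∣ W.twoTorsionPolynomial.toPoly → p.natDegree ≤ D := by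
  intro p hp hpd
  set ψ := W.twoTorsionPolynomial.toPoly with hψ
  have hd : ψ.natDegree = 3 := main_cubic_deg W
  have hψ0 : ψ ≠ 0 := by
    intro h0
    rw [h0, natDegree_zero] at hd
    omega
  have h3 : p.natDegree ≤ 3 := hd ▸ natDegree_le_of_dvd hpd hψ0
  rcases le_or_gt 3 D with h | h
  · omega
  obtain ⟨x, hx⟩ := h1 (by omega)
  have h4 : p.natDegree ≠ 3 := by
    intro h4
    obtain ⟨q, hq⟩ := hpd
    have hq0 : q ≠ 0 := by
      rintro rfl
      exact hψ0 (by rw [hq, mul_zero])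
    have hqd : q.natDegree = 0 := by
      have := natDegree_mul hp.ne_zero hq0
      rw [← hq, hd, h4] at this
      omega
    have hpx : p.IsRoot x := by
      rw [hq, IsRoot, eval_mul, mul_eq_zero] at hx
      rcases hx with hx | hx
      · exact hx
      · exfalso
        rw [eq_C_of_natDegree_eq_zero hqd, eval_C] at hx
        apply hq0
        rw [eq_C_of_natDegree_eq_zero hqd, hx, C_0]
    have h5 : p.natDegree = 1 :=
      natDegree_eq_of_degree_eq_some (degree_eq_one_of_irreducible_of_root hp hpx)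
    rw [h4] at h5
    exact absurd h5 (by norm_num)
  rcases le_or_gt 2 D with h5 | h5
  · omega
  have hs := h2 (by omega)
  have := (hs.of_dvd hψ0 hpd).natDegree_eq_one_of_irreducible hp
  omega

end cubic

/-- from genus one to genus `g` -/
theorem main_desc (hG2 : S_G2A) (g : ℕ) (hg : 1 ≤ g) :
    ∃ A' : ℕ, ∀ (K : Type) [Field K] [NumberField K] (W : WeierstrassCurve K), W.Δ ≠ 0 →
      (g = 2 → ∃ x : K, W.twoTorsionPolynomial.toPoly.IsRoot x) →
      ∃ (f' : K[X]) (Δ' M' : ℕ), IsCurve g f' Δ' M' ∧ 1 ≤ Δ' ∧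
      M' ≤ A' ^ Module.finrank ℚ K * ME W ∧
      DeltaE W ≤ A' ^ Module.finrank ℚ K * ME W ^ 20 * Δ' ^ 4 ∧
      (g = 1 → f' = W.twoTorsionPolynomial.toPoly) := by
  rcases Nat.lt_or_ge g 2 with h1 | h1
  · have hg1 : g = 1 := by omega
    subst hg1
    refine ⟨1, fun K _ _ W hW _ => ?_⟩
    have h6 : 1 ≤ DeltaE W := by
      rw [DeltaE_eq_PP]; exact GR.PP_pos _ (finite_badE W hW)
    have h7 : 1 ≤ ME W := by
      rw [ME_eq_PR]; exact GR.PR_pos _ (finite_badE W hW)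
    refine ⟨_, DeltaE W, ME W, Or.inl ⟨rfl, W, hW, rfl, rfl, rfl⟩, h6, ?_, ?_, fun _ => rfl⟩
    · rw [one_pow, one_mul]
    · rw [one_pow, one_mul]
      calc DeltaE W ≤ DeltaE W ^ 4 := Nat.le_self_pow (by norm_num) _
        _ ≤ ME W ^ 20 * DeltaE W ^ 4 := Nat.le_mul_of_pos_left _ (Nat.pow_pos h7)
  rcases Nat.lt_or_ge 2 g with h3 | h3
  · obtain ⟨A', hA'⟩ := GB.main_GB g h3
    refine ⟨A', fun K _ _ W hW _ => ?_⟩
    obtain ⟨f', hf', h4, h5⟩ := hA' K W hW
    have hDC : 1 ≤ DeltaC g f' := by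
      rw [DeltaC_eq_PP]; exact GR.PP_pos _ (finite_bad g f' hf')
    exact ⟨f', _, _, Or.inr ⟨h1, hf', rfl, rfl⟩, hDC, h4, h5, fun h => by omega⟩
  · have hg2 : g = 2 := by omega
    subst hg2
    obtain ⟨A', hA'⟩ := hG2
    refine ⟨A', fun K _ _ W hW hx => ?_⟩
    obtain ⟨f', hf', h4, h5⟩ := hA' K W hW (hx rfl)
    have hDC : 1 ≤ DeltaC 2 f' := by
      rw [DeltaC_eq_PP]; exact GR.PP_pos _ (finite_bad 2 f' hf')
    exact ⟨f', _, _, Or.inr ⟨le_rfl, hf', rfl, rfl⟩, hDC, h4, h5, fun h => by omega⟩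

theorem main_final (hone : ∀ h : ℕ, 1 ≤ h → ∃ A : ℕ, ∀ D : ℕ, 1 ≤ D → ∀ (K : Type) [Field K]
      [NumberField K] (f : K[X]), IsHyperelliptic h f →
      (∀ p : K[X], Irreducible p → p ∣ f → p.natDegree ≤ D) → Concl A D h K f)
    (hG2 : S_G2A) (g h D : ℕ) (hg : 1 ≤ g) (hh : 1 ≤ h) (hD : 1 ≤ D) (h2 : g = 2 → D ≤ 2) :
    ∃ A : ℕ, ∀ (K : Type) [Field K] [NumberField K] (f : K[X]) (Δ M : ℕ), IsCurve h f Δ M →
      (∀ p : K[X], Irreducible p → p ∣ f → p.natDegree ≤ D) →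
      ∃ (g' : ℕ) (f' : K[X]) (Δ' M' : ℕ), IsCurve g' f' Δ' M' ∧
        M' ≤ A ^ Module.finrank ℚ K * (discr K).natAbs * M ∧
        Δ ≤ (A ^ Module.finrank ℚ K * (discr K).natAbs * M * Δ') ^ A ∧
        ((g' = g ∧ (g = 1 → ∀ p : K[X], Irreducible p → p ∣ f' → p.natDegree ≤ D)) ∨
          (2 ≤ g' ∧ g' ≤ h ∧ 2 * g' ≤ 3 * (D - 1) ∧ f'.natDegree = 2 * g' + 2 ∧
            Multiset.card (UniqueFactorizationMonoid.factors f') ≤ 4 ∧
            ∀ p : K[X], Irreducible p → p ∣ f' → p.natDegree ≤ D)) := by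
  obtain ⟨A, hA⟩ := hone h hh
  obtain ⟨A', hA'⟩ := main_desc hG2 g hg
  refine ⟨(A + 1) ^ 21 * (A' + 1) + 21 * (A + 1), fun K _ _ f Δ M hC hdeg => ?_⟩
  have hd1 := one_le_discr K
  rcases hC with ⟨h1, W, hW, hfW, hΔ, hM⟩ | ⟨h1, hf, hΔ, hM⟩
  · -- genus one
    subst hΔ hM hfW
    obtain ⟨f', Δ', M', hc', hΔ', hM1, hΔ1, hf'⟩ := hA' K W hW (fun hg2 =>
      main_cubic_root W fun p hp hpd => (hdeg p hp hpd).trans (h2 hg2))
    have hME : 1 ≤ ME W := by
      rw [ME_eq_PR]; exact GR.PR_pos _ (finite_badE W hW)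
    obtain ⟨e1, e2⟩ := arith_C (A + 1) (A' + 1) (Module.finrank ℚ K) (discr K).natAbs (ME W) (ME W)
      M' (DeltaE W) (DeltaE W) Δ' (by omega) (by omega)
      hd1 hME hΔ' (by
        have : 1 ≤ (A + 1) ^ Module.finrank ℚ K := Nat.one_le_pow _ _ (by omega)
        exact Nat.le_mul_of_pos_left _ (Nat.mul_pos this hd1)) (by
        have h3 : 1 ≤ (A + 1) ^ Module.finrank ℚ K := Nat.one_le_pow _ _ (by omega)
        refine le_trans ?_ (Nat.le_self_pow (by omega) _)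
        exact Nat.le_mul_of_pos_left _ (Nat.mul_pos h3 hME))
      (hM1.trans (Nat.mul_le_mul_right _ (Nat.pow_le_pow_left (Nat.le_succ A') _)))
      (hΔ1.trans (Nat.mul_le_mul_right _ (Nat.mul_le_mul_right _
        (Nat.pow_le_pow_left (Nat.le_succ A') _))))
    refine ⟨g, f', Δ', M', hc', e1, e2, Or.inl ⟨rfl, fun hg1 => ?_⟩⟩
    rw [hf' hg1]
    exact hdeg
  · subst hΔ hM
    have hMC : 1 ≤ MC h f := by rw [MC_eq_PR]; exact GR.PR_pos _ (finite_bad h f hf)
    rcases hA D hD K f hf hdeg with ⟨W, hW, hx, hs, h3, h4⟩ | ⟨g', f', h3, h4, h5, h6, h7, h8, h9, h10, h11⟩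
    · obtain ⟨f', Δ', M', hc', hΔ', hM1, hΔ1, hf'⟩ := hA' K W hW (fun hg2 => hx (h2 hg2))
      have h6 : 1 ≤ DeltaE W := by
        rw [DeltaE_eq_PP]; exact GR.PP_pos _ (finite_badE W hW)
      obtain ⟨e1, e2⟩ := arith_C (A + 1) (A' + 1) (Module.finrank ℚ K) (discr K).natAbs (MC h f)
        (ME W) M' (DeltaC h f) (DeltaE W) Δ' (by omega) (by omega)
        hd1 hMC hΔ' (h3.trans (Nat.mul_le_mul_right _ (Nat.mul_le_mul_right _
          (Nat.pow_le_pow_left (Nat.le_succ A) _)))) (by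
          have h5 : DeltaC h f ≤ ((A + 1) ^ Module.finrank ℚ K * MC h f * DeltaE W) ^ A :=
            h4.trans (Nat.pow_le_pow_left (Nat.mul_le_mul_right _ (Nat.mul_le_mul_right _
              (Nat.pow_le_pow_left (Nat.le_succ A) _))) A)
          refine h5.trans (Nat.pow_le_pow_right ?_ (Nat.le_succ A))
          exact Nat.mul_pos (Nat.mul_pos (Nat.one_le_pow _ _ (by omega)) hMC) h6)
        (hM1.trans (Nat.mul_le_mul_right _ (Nat.pow_le_pow_left (Nat.le_succ A') _)))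
        (hΔ1.trans (Nat.mul_le_mul_right _ (Nat.mul_le_mul_right _
          (Nat.pow_le_pow_left (Nat.le_succ A') _))))
      refine ⟨g, f', Δ', M', hc', e1, e2, Or.inl ⟨rfl, fun hg1 => ?_⟩⟩
      rw [hf' hg1]
      exact main_cubic_le W D hD hx hs
    · have hAB : A ≤ (A + 1) ^ 21 * (A' + 1) + 21 * (A + 1) := by omega
      have hDC : 1 ≤ DeltaC g' f' := by
        rw [DeltaC_eq_PP]; exact GR.PP_pos _ (finite_bad g' f' h6)
      refine ⟨g', f', DeltaC g' f', MC g' f', Or.inr ⟨h3, h6, rfl, rfl⟩, ?_, ?_,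
        Or.inr ⟨h3, h4, h5, h7, h8, h9⟩⟩
      · exact h10.trans (Nat.mul_le_mul_right _ (Nat.mul_le_mul_right _
          (Nat.pow_le_pow_left hAB _)))
      · set B := (A + 1) ^ 21 * (A' + 1) + 21 * (A + 1) with hB
        have hB1 : 1 ≤ B ^ Module.finrank ℚ K := Nat.one_le_pow _ _ (by omega)
        refine h11.trans ?_
        refine le_trans (Nat.pow_le_pow_left (m := B ^ Module.finrank ℚ K * (discr K).natAbs *
          MC h f * DeltaC g' f') ?_ A) ?_
        · refine Nat.mul_le_mul_right _ (Nat.mul_le_mul_right _ ?_)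
          refine (Nat.pow_le_pow_left hAB _).trans ?_
          exact Nat.le_mul_of_pos_right _ hd1
        · exact Nat.pow_le_pow_right
            (Nat.mul_pos (Nat.mul_pos (Nat.mul_pos hB1 hd1) hMC) hDC) hAB

end Pool.Agent.Lib.MP_ca2859_nt.FF
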