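import Pool.Agent.Lib.MP_ca2859_nt.FF.Stm

set_option autoImplicit false

/-!
# Piece ASMG
-/

open Polynomial WithZero IsDedekindDomain NumberField
open Pool.Agent.Lib.MP_ca2859_nt Pool.Agent.Lib.MP_ca2859_nt.GR

namespace Pool.Agent.Lib.MP_ca2859_nt.FF

theorem piece_ASMG : S_ASMG := by
  classical
  intro K _ _ g hg f hf ι 𝒯 d hd h
  have hc0 : 0 < cF g := by
    have := cst_pos g hg
    unfold cF
    positivity
  set S := (finite_bad g f hf).toFinset with hS
  have hMC : MC g f = ∏ v ∈ S, Ideal.absNorm v.asIdeal := MC_eq_prod g f hf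
  have hD : DeltaC g f = ∏ v ∈ S, Ideal.absNorm v.asIdeal ^ discExp g f v := by
    rw [DeltaC_eq_PP]
    exact PP_eq _ S (fun v hv => by rw [hS, Set.Finite.mem_toFinset]; exact hv)
  rw [hD, hMC]
  have h1 : ∀ v ∈ S, Ideal.absNorm v.asIdeal ^ discExp g f v ≤
      Ideal.absNorm v.asIdeal ^ ((2 * g + 1) * (g + 3)) * Ideal.absNorm v.asIdeal ^ cnt (cF g) v *
        (∏ T ∈ 𝒯, Ideal.absNorm v.asIdeal ^ d T v) ^ bF g := by
    intro v hv
    rw [hS, Set.Finite.mem_toFinset] at hv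
    have h2 := h v hv
    rw [ord_eq_cnt (cF g) hc0] at h2
    have h3 : discExp g f v ≤ (2 * g + 1) * (g + 3) + cnt (cF g) v + bF g * ∑ T ∈ 𝒯, d T v := by
      exact_mod_cast h2
    rw [Finset.prod_pow_eq_pow_sum, ← pow_mul, ← pow_add, ← pow_add, mul_comm (∑ T ∈ 𝒯, d T v)]
    exact Nat.pow_le_pow_right (one_le_absNorm v) h3
  refine (Finset.prod_le_prod' h1).trans ?_
  rw [Finset.prod_mul_distrib, Finset.prod_mul_distrib, Finset.prod_pow, Finset.prod_pow]
  refine Nat.mul_le_mul (Nat.mul_le_mul_left _ (prod_cnt_le _ hc0 S)) (Nat.pow_le_pow_left ?_ _)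
  rw [Finset.prod_comm]
  exact Finset.prod_le_prod' fun T hT => prod_le_PP (d T) (hd T hT) S

end Pool.Agent.Lib.MP_ca2859_nt.FF
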