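import Pool.Agent.Lib.MP_ca2859_nt.FF.Stm

set_option autoImplicit false

/-!
# Piece G2A
-/

open Polynomial WithZero IsDedekindDomain NumberField
open Pool.Agent.Lib.MP_ca2859_nt Pool.Agent.Lib.MP_ca2859_nt.GR

namespace Pool.Agent.Lib.MP_ca2859_nt.FF

theorem piece_G2A (hN : S_G2N) (hF : S_G2F) (hL : S_G2L) : S_G2A := by
  refine ⟨6 ^ 80, ?_⟩
  intro K _ _ W hW hroot
  obtain ⟨a, b, hb, hab, hgood, hJ⟩ := hN K W hW hroot
  obtain ⟨hyp, hF2⟩ := hF K a b hb hab
  have hL2 := hL K a b hb hab
  set f := fG2 a b with hf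
  have hfin := finite_bad 2 f hyp
  have hfinE := finite_badE W hW
  refine ⟨f, hyp, ?_, ?_⟩
  · have h1 : MC 2 f ≤ ME W * 6 ^ Module.finrank ℚ K := by
      rw [MC_eq_PR, ME_eq_PR]
      apply PR_le _ hfin _ hfinE 6 (by norm_num)
      intro v hv hv' h6
      apply hv
      rw [show ((6 : ℕ) : K) = 2 * 3 by norm_num, ord_mul two_ne_zero three_ne_zero] at h6
      have n2 := natCast_int_le (v.valuation K) 2
      have n3 := natCast_int_le (v.valuation K) 3
      push_cast at n2 n3
      have v2 : v.valuation K (2 : K) = 1 := by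
        rw [w_eq_exp two_ne_zero, show ord (v.valuation K) (2 : K) = 0 by omega, neg_zero, exp_zero]
      exact hF2 v v2 (hgood v hv' v2)
    refine h1.trans ?_
    rw [mul_comm]
    apply Nat.mul_le_mul_right
    apply Nat.pow_le_pow_left
    exact Nat.le_self_pow (by omega) 6
  · have h1 : DeltaE W ≤ DeltaC 2 f ^ 4 * ME W ^ 20 * (6 ^ 80) ^ Module.finrank ℚ K := by
      rw [DeltaE_eq_PP, DeltaC_eq_PP, ME_eq_PR]
      apply PP_le_rad _ hfinE _ hfin 4 20 (6 ^ 80) (by positivity)
      intro v _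
      have n2 := natCast_int_le (v.valuation K) 2
      have n3 := natCast_int_le (v.valuation K) 3
      push_cast at n2 n3
      have h3 := hJ v (3 * discExp 2 f v + 40 * ord (v.valuation K) (2 : K)) (by positivity) (hL2 v)
      have h6 : ord (v.valuation K) ((6 ^ 80 : ℕ) : K) =
          80 * (ord (v.valuation K) (2 : K) + ord (v.valuation K) (3 : K)) := by
        rw [Nat.cast_pow, ord_pow, show ((6 : ℕ) : K) = 2 * 3 by norm_num,
          ord_mul two_ne_zero three_ne_zero]
        push_cast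
        ring
      rw [h6]
      push_cast
      have h7 : (0 : ℤ) ≤ discExp 2 f v := Int.natCast_nonneg _
      linarith
    refine h1.trans (le_of_eq ?_)
    generalize 6 ^ 80 = z
    ring

end Pool.Agent.Lib.MP_ca2859_nt.FF
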