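import Pool.Agent.Lib.MP_ca2859_nt.FF.Stm

set_option autoImplicit false

/-!
# Piece G2L
-/

open Polynomial WithZero IsDedekindDomain NumberField
open Pool.Agent.Lib.MP_ca2859_nt Pool.Agent.Lib.MP_ca2859_nt.GR

namespace Pool.Agent.Lib.MP_ca2859_nt.FF

private theorem g2l_deg {K : Type} [Field K] (a b : K) : (fG2 a b).natDegree = 5 := by
  unfold fG2
  have h1 : (X ^ 2 - C b : K[X]).Monic := monic_X_pow_sub_C b two_ne_zero
  have h2 : (X ^ 2 + C a * X + C b : K[X]).natDegree = 2 := by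
    compute_degree!
  have h3 : (X ^ 2 + C a * X + C b : K[X]) ≠ 0 := by
    intro h
    rw [h] at h2
    simp at h2
  rw [natDegree_mul (mul_ne_zero X_ne_zero h1.ne_zero) h3, natDegree_mul X_ne_zero h1.ne_zero,
    natDegree_X, natDegree_X_pow_sub_C, h2]

/-- minimum of the orders -/
private theorem g2l_add {L : Type} [Field L] (w : Valuation L ℤᵐ⁰) (x y : L) (m : ℤ) (hx : x ≠ 0)
    (hy : y ≠ 0) (hxy : x + y ≠ 0) (h1 : m ≤ ord w x) (h2 : m ≤ ord w y) : m ≤ ord w (x + y) := by
  have h3 := w.map_add x y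
  rw [w_eq_exp hx, w_eq_exp hy, w_eq_exp hxy] at h3
  rcases le_max_iff.1 h3 with h | h
  · rw [exp_le_exp] at h; omega
  · rw [exp_le_exp] at h; omega

private theorem g2l_core {K : Type} [Field K] [NumberField K] {L : Type} [Field L] [NumberField L]
    [Algebra K L] (a b : K) (v : HeightOneSpectrum (𝓞 K)) (w : HeightOneSpectrum (𝓞 L))
    [w.asIdeal.LiesOver v.asIdeal] (h0 : a ^ 2 - 3 * b ≠ 0) (f : K[X]) (hfdef : f = fG2 a b)
    (hf : IsHyperelliptic 2 f) (hf0 : f ≠ 0) (hsp : (f.map (algebraMap K L)).Splits) :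
    ord (v.valuation K) (16 * (b ^ 2 * (a ^ 2 - 4 * b))) -
      3 * ord (v.valuation K) (16 * (a ^ 2 - 3 * b)) ≤
    3 * discExp 2 f v + 40 * ord (v.valuation K) (2 : K) := by
  set φ := algebraMap K L with hφ
  have hm0 : f.map φ ≠ 0 := (Polynomial.map_ne_zero_iff φ.injective).2 hf0
  have hmap : f.map φ = X * (X ^ 2 - C (φ b)) * (X ^ 2 + C (φ a) * X + C (φ b)) := by
    rw [hfdef, fG2]
    simp only [Polynomial.map_add, Polynomial.map_sub, Polynomial.map_mul, Polynomial.map_pow, map_X,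
      map_C]
  obtain ⟨s, hs⟩ : ∃ s : L, s ^ 2 = φ b := by
    have h1 : (X ^ 2 - C (φ b) : L[X]).Splits :=
      hsp.of_dvd hm0 (by rw [hmap]; exact ⟨X * (X ^ 2 + C (φ a) * X + C (φ b)), by ring⟩)
    obtain ⟨s, hs⟩ := h1.exists_eval_eq_zero (by
      rw [degree_X_pow_sub_C two_pos]; decide)
    refine ⟨s, ?_⟩
    simpa [sub_eq_zero] using hs
  obtain ⟨r, hr⟩ : ∃ r : L, r ^ 2 + φ a * r + φ b = 0 := by
    have h1 : (X ^ 2 + C (φ a) * X + C (φ b) : L[X]).Splits :=
      hsp.of_dvd hm0 (by rw [hmap]; exact ⟨X * (X ^ 2 - C (φ b)), by ring⟩)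
    obtain ⟨r, hr⟩ := h1.exists_eval_eq_zero (by
      have : (X ^ 2 + C (φ a) * X + C (φ b) : L[X]).degree = 2 := by compute_degree!
      rw [this]; decide)
    refine ⟨r, ?_⟩
    simpa using hr
  obtain ⟨t, ht⟩ : ∃ t : L, t = - φ a - r := ⟨_, rfl⟩
  have hA : φ a = -(r + t) := by rw [ht]; ring
  have hB : φ b = r * t := by
    rw [ht]
    linear_combination hr
  set α : Fin (2 * 2 + 1) → L := ![0, s, -s, r, t] with hα
  have hsplit : f.map φ = C 1 * ∏ j, (X - C (α j)) := by
    have h5 : ∏ j, (X - C (α j)) = (X - C (0 : L)) * (X - C s) * (X - C (-s)) * (X - C r) * (X - C t) := by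
      rw [Fin.prod_univ_five]
      rfl
    rw [h5, hmap]
    have h6 : (X ^ 2 - C (φ b) : L[X]) = (X - C s) * (X - C (-s)) := by
      rw [← hs]
      simp only [map_pow, map_neg]
      ring
    have h7 : (X ^ 2 + C (φ a) * X + C (φ b) : L[X]) = (X - C r) * (X - C t) := by
      rw [hA, hB]
      simp only [map_neg, map_add, map_mul]
      ring
    rw [h6, h7, map_zero, map_one]
    ring
  have hinj : Function.Injective α := by
    have hsep : (f.map φ).Separable := hf.1.map
    rw [hsplit] at hsep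
    exact separable_prod_X_sub_C_iff.1 hsep.of_mul_right
  have hcb := fun (i j k : Fin (2 * 2 + 1)) (hij : i ≠ j) (hik : i ≠ k) (hjk : j ≠ k) =>
    cross_bound_infty 2 (by norm_num) f hf v w 1 one_ne_zero α hinj hsplit i j k hij hik hjk
  have he0 : 0 < Ideal.ramificationIdx' v.asIdeal w.asIdeal := ram_pos v w
  set e := Ideal.ramificationIdx' v.asIdeal w.asIdeal with he'
  set n : ℤ := (discExp 2 f v : ℤ) + (4 * (2 : ℕ) + 4) * ord (v.valuation K) (2 : K) with hn
  have n2 := natCast_int_le (v.valuation K) 2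
  push_cast at n2
  -- the roots
  have hr0 : r ≠ 0 := by
    intro h
    have h1 := @hinj 3 0 (by simp [hα, h])
    exact absurd h1 (by decide)
  have ht0 : t ≠ 0 := by
    intro h
    have h1 := @hinj 4 0 (by simp [hα, h])
    exact absurd h1 (by decide)
  have hrt : r - t ≠ 0 := by
    intro h
    have h1 := @hinj 3 4 (by simp [hα, sub_eq_zero.1 h])
    exact absurd h1 (by decide)
  have hneg : ∀ x : L, ord (w.valuation L) (0 - x) = ord (w.valuation L) x := by
    intro x
    rw [zero_sub, ord, ord, Valuation.map_neg]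
  have hsw : ord (w.valuation L) (t - r) = ord (w.valuation L) (r - t) := by
    rw [ord, ord, Valuation.map_sub_swap]
  have c1 := hcb 0 3 4 (by decide) (by decide) (by decide)
  have c2 := hcb 0 4 3 (by decide) (by decide) (by decide)
  have c3 := hcb 3 4 0 (by decide) (by decide) (by decide)
  have c4 := hcb 4 3 0 (by decide) (by decide) (by decide)
  have a0 : α 0 = 0 := rfl
  have a3 : α 3 = r := rfl
  have a4 : α 4 = t := rfl
  rw [a0, a3, a4, hneg, hneg] at c1 c2
  rw [a0, a3, a4, sub_zero] at c3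
  rw [a0, a3, a4, sub_zero, hsw] at c4
  -- the orders of the coefficients
  have e16 : ord (w.valuation L) (16 : L) = 4 * (e * ord (v.valuation K) (2 : K)) := by
    have h1 : (16 : L) = (φ 2) ^ 4 := by rw [map_ofNat]; norm_num
    rw [h1, ord_pow, ord_base v w]
    push_cast
    ring
  have h16 : (16 : L) ≠ 0 := by norm_num
  have e1 : (e : ℤ) * ord (v.valuation K) (16 * (b ^ 2 * (a ^ 2 - 4 * b))) =
      4 * (e * ord (v.valuation K) (2 : K)) + (2 * (ord (w.valuation L) r + ord (w.valuation L) t) +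
        2 * ord (w.valuation L) (r - t)) := by
    rw [← ord_base v w]
    have h1 : φ (16 * (b ^ 2 * (a ^ 2 - 4 * b))) = 16 * ((r * t) ^ 2 * (r - t) ^ 2) := by
      simp only [map_mul, map_sub, map_pow, map_ofNat, hA, hB]
      ring
    have h2 : (r * t) ^ 2 ≠ 0 := pow_ne_zero _ (mul_ne_zero hr0 ht0)
    have h3 : (r - t) ^ 2 ≠ 0 := pow_ne_zero _ hrt
    rw [h1, ord_mul h16 (mul_ne_zero h2 h3), ord_mul h2 h3, ord_pow, ord_pow, ord_mul hr0 ht0, e16]
    push_cast
    ring
  have e2 : (e : ℤ) * ord (v.valuation K) (16 * (a ^ 2 - 3 * b)) =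
      4 * (e * ord (v.valuation K) (2 : K)) + ord (w.valuation L) (r ^ 2 + (t ^ 2 - r * t)) := by
    rw [← ord_base v w]
    have h1 : φ (16 * (a ^ 2 - 3 * b)) = 16 * (r ^ 2 + (t ^ 2 - r * t)) := by
      simp only [map_mul, map_sub, map_pow, map_ofNat, hA, hB]
      ring
    have h3 : r ^ 2 + (t ^ 2 - r * t) ≠ 0 := by
      intro h
      rw [h, mul_zero, map_eq_zero] at h1
      rcases mul_eq_zero.1 h1 with h | h
      · norm_num at h
      · exact h0 h
    rw [h1, ord_mul h16 h3, e16]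
  have hne : r ^ 2 + (t ^ 2 - r * t) ≠ 0 := by
    intro h
    have h1 : φ (a ^ 2 - 3 * b) = r ^ 2 + (t ^ 2 - r * t) := by
      simp only [map_mul, map_sub, map_pow, map_ofNat, hA, hB]
      ring
    rw [h, map_eq_zero] at h1
    exact h0 h1
  set x := ord (w.valuation L) r with hx
  set y := ord (w.valuation L) t with hy
  set z := ord (w.valuation L) (r - t) with hz
  have e3 : 2 * min x y ≤ ord (w.valuation L) (r ^ 2 + (t ^ 2 - r * t)) := by
    have o1 : ord (w.valuation L) (r ^ 2) = 2 * x := by rw [ord_pow]; push_cast; ring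
    have o2 : ord (w.valuation L) (t ^ 2) = 2 * y := by rw [ord_pow]; push_cast; ring
    have o3 : ord (w.valuation L) (-(r * t)) = x + y := by
      rw [ord, Valuation.map_neg, ← ord, ord_mul hr0 ht0]
    have hm1 : min x y ≤ x := min_le_left _ _
    have hm2 : min x y ≤ y := min_le_right _ _
    by_cases h2 : t ^ 2 - r * t = 0
    · rw [h2, add_zero, o1]; linarith
    · refine g2l_add _ _ _ _ (pow_ne_zero _ hr0) h2 hne (by rw [o1]; linarith) ?_
      rw [sub_eq_add_neg] at h2 ⊢
      exact g2l_add _ _ _ _ (pow_ne_zero _ ht0) (neg_ne_zero.2 (mul_ne_zero hr0 ht0)) h2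
        (by rw [o2]; linarith) (by rw [o3]; linarith)
  have hez : (0 : ℤ) < e := by exact_mod_cast he0
  have hkey : (e : ℤ) * (ord (v.valuation K) (16 * (b ^ 2 * (a ^ 2 - 4 * b))) -
      3 * ord (v.valuation K) (16 * (a ^ 2 - 3 * b))) ≤
      e * (2 * n - 8 * ord (v.valuation K) (2 : K)) := by
    have hc : (e : ℤ) * (3 * ord (v.valuation K) (16 * (a ^ 2 - 3 * b))) =
        3 * (e * ord (v.valuation K) (16 * (a ^ 2 - 3 * b))) := by ring
    rw [mul_sub, hc, e1, e2]
    rcases min_cases x y with ⟨hm, _⟩ | ⟨hm, _⟩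
    · rw [hm] at e3
      linarith
    · rw [hm] at e3
      linarith
  have hfin := le_of_mul_le_mul_left hkey hez
  rw [hn] at hfin
  have hd : (0 : ℤ) ≤ discExp 2 f v := Int.natCast_nonneg _
  push_cast at hfin
  linarith

theorem piece_G2L (hF : S_G2F) : S_G2L := by
  intro K _ _ a b hb hab v
  obtain ⟨hf, -⟩ := hF K a b hb hab
  by_cases h0 : a ^ 2 - 3 * b = 0
  · exact Or.inl h0
  right
  have hfd : (fG2 a b).natDegree = 5 := g2l_deg a b
  have hf0 : fG2 a b ≠ 0 := by
    intro h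
    rw [h] at hfd
    simp at hfd
  obtain ⟨w, hw⟩ := exists_place_above (K := K) (L := spl (fG2 a b)) v
  exact g2l_core (L := spl (fG2 a b)) a b v w h0 (fG2 a b) rfl hf hf0
    (IsSplittingField.splits (spl (fG2 a b)) (fG2 a b))

end Pool.Agent.Lib.MP_ca2859_nt.FF
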