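import Pool.Agent.Lib.MP_ca2859_nt.FF.Main
import Pool.Agent.Lib.MP_ca2859_nt.FF.ASMG
import Pool.Agent.Lib.MP_ca2859_nt.FF.G2A
import Pool.Agent.Lib.MP_ca2859_nt.FF.G2L
import Pool.Agent.Lib.MP_ca2859_nt.FF.P.COMB
import Pool.Agent.Lib.MP_ca2859_nt.FF.P.GAPI
import Pool.Agent.Lib.MP_ca2859_nt.FF.P.GAP
import Pool.Agent.Lib.MP_ca2859_nt.FF.P.TW
import Pool.Agent.Lib.MP_ca2859_nt.FF.P.GLOB
import Pool.Agent.Lib.MP_ca2859_nt.FF.P.LOC6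
import Pool.Agent.Lib.MP_ca2859_nt.FF.P.LOC60
import Pool.Agent.Lib.MP_ca2859_nt.FF.P.LOC4
import Pool.Agent.Lib.MP_ca2859_nt.FF.P.EQD
import Pool.Agent.Lib.MP_ca2859_nt.FF.P.LOC40
import Pool.Agent.Lib.MP_ca2859_nt.FF.P.TMC
import Pool.Agent.Lib.MP_ca2859_nt.FF.P.TME
import Pool.Agent.Lib.MP_ca2859_nt.FF.P.CR6
import Pool.Agent.Lib.MP_ca2859_nt.FF.P.CR4
import Pool.Agent.Lib.MP_ca2859_nt.FF.P.ASML
import Pool.Agent.Lib.MP_ca2859_nt.FF.P.FAC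
import Pool.Agent.Lib.MP_ca2859_nt.FF.P.FLIP
import Pool.Agent.Lib.MP_ca2859_nt.FF.P.T2
import Pool.Agent.Lib.MP_ca2859_nt.FF.P.G2N
import Pool.Agent.Lib.MP_ca2859_nt.FF.P.G2F

/-!
# Fixed field theorem: all pieces put together
-/

open Polynomial WithZero IsDedekindDomain NumberField
open Pool.Agent.Lib.MP_ca2859_nt Pool.Agent.Lib.MP_ca2859_nt.GR

namespace Pool.Agent.Lib.MP_ca2859_nt.FF

theorem all_GLOB : S_GLOB := piece_GLOB piece_TW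

theorem all_TMC : S_TMC := piece_TMC piece_LOC6 piece_LOC60 all_GLOB

theorem all_TME : S_TME := piece_TME piece_LOC4 piece_LOC40 piece_EQD all_GLOB

theorem all_ASML : S_ASML := piece_ASML (piece_GAP piece_GAPI)

theorem all_G2A : S_G2A := piece_G2A piece_G2N piece_G2F (piece_G2L piece_G2F)

theorem main_all (g h D : ℕ) (hg : 1 ≤ g) (hh : 1 ≤ h) (hD : 1 ≤ D) (h2 : g = 2 → D ≤ 2) :
    ∃ A : ℕ, ∀ (K : Type) [Field K] [NumberField K] (f : K[X]) (Δ M : ℕ), IsCurve h f Δ M →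
      (∀ p : K[X], Irreducible p → p ∣ f → p.natDegree ≤ D) →
      ∃ (g' : ℕ) (f' : K[X]) (Δ' M' : ℕ), IsCurve g' f' Δ' M' ∧
        M' ≤ A ^ Module.finrank ℚ K * (discr K).natAbs * M ∧
        Δ ≤ (A ^ Module.finrank ℚ K * (discr K).natAbs * M * Δ') ^ A ∧
        ((g' = g ∧ (g = 1 → ∀ p : K[X], Irreducible p → p ∣ f' → p.natDegree ≤ D)) ∨
          (2 ≤ g' ∧ g' ≤ h ∧ 2 * g' ≤ 3 * (D - 1) ∧ f'.natDegree = 2 * g' + 2 ∧
            Multiset.card (UniqueFactorizationMonoid.factors f') ≤ 4 ∧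
            ∀ p : K[X], Irreducible p → p ∣ f' → p.natDegree ≤ D)) :=
  main_final (main_one piece_COMB all_TMC all_TME piece_CR6 piece_CR4 all_ASML piece_ASMG
    piece_FAC piece_FLIP piece_T2) all_G2A g h D hg hh hD h2

end Pool.Agent.Lib.MP_ca2859_nt.FF
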