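import Pool.Agent.Lib.MP_ca2859_nt.FF.Stm
import Pool.Agent.Lib.MP_ca2859_nt.GR.T1

/-!
# Fixed field theorem: assembly from the pieces
-/

open Polynomial WithZero IsDedekindDomain NumberField
open Pool.Agent.Lib.MP_ca2859_nt Pool.Agent.Lib.MP_ca2859_nt.GR

namespace Pool.Agent.Lib.MP_ca2859_nt.FF

/-- the conclusion for one curve -/
def Concl (A D h : ℕ) (K : Type) [Field K] [NumberField K] (f : K[X]) : Prop :=
  (∃ W : WeierstrassCurve K, W.Δ ≠ 0 ∧
      (D ≤ 2 → ∃ x : K, W.twoTorsionPolynomial.toPoly.IsRoot x) ∧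
      (D ≤ 1 → W.twoTorsionPolynomial.toPoly.Splits) ∧
      ME W ≤ A ^ Module.finrank ℚ K * (discr K).natAbs * MC h f ∧
      DeltaC h f ≤ (A ^ Module.finrank ℚ K * MC h f * DeltaE W) ^ A) ∨
  (∃ (g' : ℕ) (f' : K[X]), 2 ≤ g' ∧ g' ≤ h ∧ 2 * g' ≤ 3 * (D - 1) ∧ IsHyperelliptic g' f' ∧
      f'.natDegree = 2 * g' + 2 ∧ nfac f' ≤ 4 ∧ DegLe D f' ∧
      MC g' f' ≤ A ^ Module.finrank ℚ K * (discr K).natAbs * MC h f ∧
      DeltaC h f ≤ (A ^ Module.finrank ℚ K * MC h f * DeltaC g' f') ^ A)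

/-- the constant -/
noncomputable def cA (h : ℕ) : ℕ :=
  (2 * h + 1) * (h + 3) + cF h + 2 ^ (2 * h + 2) * bF h + 4 * (2 * h + 2)

theorem cF_pos (h : ℕ) (hh : 1 ≤ h) : 0 < cF h := by
  have := cst_pos h hh
  unfold cF
  positivity

theorem arith_A (h n mc pp dc : ℕ) (hmc : 1 ≤ mc) (hpp : 1 ≤ pp)
    (hdc : dc ≤ mc ^ ((2 * h + 1) * (h + 3)) * cF h ^ n *
      (pp ^ (2 ^ (2 * h + 2))) ^ bF h) :
    dc ≤ (cA h ^ n * mc * pp) ^ cA h := by
  have hA1 : 1 ≤ cA h := by unfold cA; omega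
  have hA2 : (2 * h + 1) * (h + 3) ≤ cA h := by unfold cA; omega
  have hA3 : cF h ≤ cA h := by unfold cA; omega
  have hA4 : 2 ^ (2 * h + 2) * bF h ≤ cA h := by
    unfold cA
    generalize 2 ^ (2 * h + 2) * bF h = z
    omega
  refine hdc.trans ?_
  rw [mul_pow, mul_pow]
  refine Nat.mul_le_mul ?_ ?_
  · rw [mul_comm]
    refine Nat.mul_le_mul ?_ ?_
    · refine (Nat.pow_le_pow_left hA3 n).trans ?_
      exact Nat.le_self_pow (by omega) _
    · exact Nat.pow_le_pow_right hmc hA2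
  · rw [← pow_mul]
    exact Nat.pow_le_pow_right hpp hA4

theorem arith_B (h n dd mc z : ℕ) (hz : z ≤ (4 * (2 * h + 2)) ^ n * dd * mc) :
    z ≤ cA h ^ n * dd * mc := by
  refine hz.trans ?_
  refine Nat.mul_le_mul_right _ (Nat.mul_le_mul_right _ (Nat.pow_le_pow_left ?_ n))
  unfold cA
  generalize 2 ^ (2 * h + 2) * bF h = z
  omega

/-- data attached to a set `T` of roots -/
def DT (D h : ℕ) (K : Type) [Field K] [NumberField K] (f : K[X])
    (d : HeightOneSpectrum (𝓞 K) → ℕ) : Prop :=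
  (∃ W : WeierstrassCurve K, W.Δ ≠ 0 ∧
      (D ≤ 2 → ∃ x : K, W.twoTorsionPolynomial.toPoly.IsRoot x) ∧
      (D ≤ 1 → W.twoTorsionPolynomial.toPoly.Splits) ∧
      ME W ≤ (4 * (2 * h + 2)) ^ Module.finrank ℚ K * (discr K).natAbs * MC h f ∧
      d = fun v => discExpE W v) ∨
  (∃ (g' : ℕ) (f' : K[X]), 2 ≤ g' ∧ g' ≤ h ∧ 2 * g' ≤ 3 * (D - 1) ∧ IsHyperelliptic g' f' ∧
      f'.natDegree = 2 * g' + 2 ∧ nfac f' ≤ 4 ∧ DegLe D f' ∧
      MC g' f' ≤ (4 * (2 * h + 2)) ^ Module.finrank ℚ K * (discr K).natAbs * MC h f ∧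
      d = fun v => discExp g' f' v)

theorem main_even (hCOMB : S_COMB) (hTMC : S_TMC) (hTME : S_TME) (hCR6 : S_CR6) (hCR4 : S_CR4)
    (hASML : S_ASML) (hASMG : S_ASMG) (hFAC : S_FAC) (hT2 : S_T2) (h D : ℕ) (hh : 1 ≤ h)
    (K : Type) [Field K] [NumberField K] (f : K[X]) (hf : IsHyperelliptic h f)
    (hfd : f.natDegree = 2 * h + 2) (hD : DegLe D f) : Concl (cA h) D h K f := by
  classical
  have hfin := finite_bad h f hf
  have hMC1 : 1 ≤ MC h f := by rw [MC_eq_PR]; exact PR_pos _ hfin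
  have hn1 : 1 ≤ Module.finrank ℚ K := Module.finrank_pos
  obtain ⟨a, α, π, hdata⟩ := exists_rootData (L := spl f) (2 * h + 2) f hfd (by omega) hf.1
    (IsSplittingField.splits (spl f) f)
  obtain ⟨β, hβ1, hβ2, hβ3⟩ := hFAC K (spl f) (2 * h + 2) f hf.1 hfd (by omega) a hdata.a0 α
    hdata.inj hdata.split
  have hblock : ∀ b, (Finset.univ.filter fun j => β j = b).card ≤ D := by
    intro b
    by_cases hb : ∃ j, β j = b
    · obtain ⟨j, rfl⟩ := hb
      rw [hβ2 j]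
      exact hD _ (hβ1 j).1 (hβ1 j).2
    · have : (Finset.univ.filter fun j => β j = b) = ∅ := by
        rw [Finset.filter_eq_empty_iff]
        intro j _ hj
        exact hb ⟨j, hj⟩
      rw [this]
      simp
  obtain ⟨𝒯, h𝒯⟩ : ∃ 𝒯 : Finset (Finset (Fin (2 * h + 2))), ∀ T, T ∈ 𝒯 ↔
    ∃ J : Finset K[X], J ⊆ Finset.univ.image β ∧ J.card ≤ 4 ∧
      T = Finset.univ.filter (fun j => β j ∈ J) ∧
      ∃ g' : ℕ, 1 ≤ g' ∧ T.card = 2 * g' + 2 ∧ (g' = 1 ∨ 2 * g' ≤ 3 * (D - 1)) :=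
    ⟨(Set.toFinite {T : Finset (Fin (2 * h + 2)) |
      ∃ J : Finset K[X], J ⊆ Finset.univ.image β ∧ J.card ≤ 4 ∧
      T = Finset.univ.filter (fun j => β j ∈ J) ∧
      ∃ g' : ℕ, 1 ≤ g' ∧ T.card = 2 * g' + 2 ∧ (g' = 1 ∨ 2 * g' ≤ 3 * (D - 1))}).toFinset,
      fun T => by rw [Set.Finite.mem_toFinset]; rfl⟩
  have hsee : ∀ S : Finset (Fin (2 * h + 2)), 2 ≤ S.card → 2 ≤ Sᶜ.card →
      ∃ T ∈ 𝒯, 2 ≤ (T ∩ S).card ∧ 2 ≤ (T \ S).card := by
    intro S h1 h2
    obtain ⟨J, hJ1, hJ2, ⟨g', hg1, hg2, hg3⟩, hJ4, hJ5⟩ :=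
      hCOMB (2 * h + 2) D K[X] β ⟨h + 1, by ring⟩ (by omega) hblock S h1 h2
    refine ⟨Finset.univ.filter (fun j => β j ∈ J), ?_, hJ4, hJ5⟩
    exact (h𝒯 _).2 ⟨J, hJ1, hJ2, rfl, g', hg1, hg2, hg3⟩
  -- the curves attached to the sets `T`
  have hcur : ∀ T ∈ 𝒯, ∃ d : HeightOneSpectrum (𝓞 K) → ℕ, {v | d v ≠ 0}.Finite ∧
      DT D h K f d ∧ ∀ (v : HeightOneSpectrum (𝓞 K)) (w : HeightOneSpectrum (𝓞 (spl f))),
      w.asIdeal.LiesOver v.asIdeal → ∀ i ∈ T, ∀ j ∈ T, ∀ k ∈ T, ∀ l ∈ T,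
      i ≠ j → i ≠ k → i ≠ l → j ≠ k → j ≠ l → k ≠ l →
      2 * ord (w.valuation (spl f)) ((α i - α k) * (α j - α l)) ≤
      2 * ord (w.valuation (spl f)) ((α i - α j) * (α k - α l)) +
      (Ideal.ramificationIdx' v.asIdeal w.asIdeal : ℕ) *
        (d v + (4 * h + 8) * ord (v.valuation K) (2 : K)) := by
    intro T hT
    obtain ⟨J, hJ1, hJ2, hTJ, g', hg1, hg2, hg3⟩ := (h𝒯 T).1 hT
    obtain ⟨hm, hmap, hq⟩ := hβ3 J hJ1
    rw [← hTJ] at hmap
    have hgh : g' ≤ h := by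
      have := Finset.card_le_univ T
      rw [Fintype.card_fin] at this
      omega
    have hdeg1 : DegLe D (fJ J) := by
      intro p hp hpd
      exact hD p hp ((hq 1 one_ne_zero).2 p hp (by simpa using hpd))
    have hqdeg : (fJ J).natDegree = 2 * g' + 2 := by
      rw [← natDegree_map (algebraMap K (spl f)), hmap, natDegree_prod_of_monic _ _
        (fun j _ => monic_X_sub_C _)]
      simp [hg2]
    have h2nn : ∀ v : HeightOneSpectrum (𝓞 K), 0 ≤ ord (v.valuation K) (2 : K) := fun v => by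
      simpa using natCast_int_le (v.valuation K) 2
    by_cases hg : g' = 1
    · subst hg
      obtain ⟨e, he, hΔ, hME⟩ := hTME K (spl f) h hh f hf a hdata.a0 α hdata.inj hdata.split T
        (fJ J) hg2 hmap
      refine ⟨fun v => discExpE (EQ (fJ J) e) v, finite_badE _ hΔ, Or.inl
        ⟨EQ (fJ J) e, hΔ, ?_, ?_, hME, rfl⟩, ?_⟩
      · intro hD2
        exact (hT2 K (fJ J) e hm hqdeg he).1 fun p hp hpd => (hdeg1 p hp hpd).trans hD2
      · intro hD2
        exact (hT2 K (fJ J) e hm hqdeg he).2 fun p hp hpd => (hdeg1 p hp hpd).trans hD2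
      · intro v w hw i hi j hj k hk l hl hij hik hil hjk hjl hkl
        have h1 := hCR4 K (spl f) v w hw (2 * h + 2) α hdata.inj T (fJ J) hg2 hmap e he
          i hi j hj k hk l hl hij hik hil hjk hjl hkl
        refine h1.trans ?_
        have h3 : (0 : ℤ) ≤ (Ideal.ramificationIdx' v.asIdeal w.asIdeal : ℕ) := by positivity
        have h4 := h2nn v
        have h5 : ((discExpE (EQ (fJ J) e) v : ℤ) + 8 * ord (v.valuation K) (2 : K)) ≤
            ((discExpE (EQ (fJ J) e) v : ℤ) + (4 * h + 8) * ord (v.valuation K) (2 : K)) := by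
          have : (0 : ℤ) ≤ (4 * h) * ord (v.valuation K) (2 : K) := by positivity
          linarith
        have := mul_le_mul_of_nonneg_left h5 h3
        linarith
    · obtain ⟨e, he, hyp, hMC⟩ := hTMC K (spl f) h hh f hf a hdata.a0 α hdata.inj hdata.split T
        (fJ J) g' hg1 hg2 hmap
      obtain ⟨hq1, hq2⟩ := hq e he
      refine ⟨fun v => discExp g' (C e * fJ J) v, finite_bad g' _ hyp, Or.inr
        ⟨g', C e * fJ J, by omega, hgh, ?_, hyp, ?_, ?_, ?_, hMC, rfl⟩, ?_⟩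
      · rcases hg3 with h1 | h1
        · exact absurd h1 hg
        · exact h1
      · rw [natDegree_C_mul he, hqdeg]
      · rw [hq1]
        exact hJ2
      · intro p hp hpd
        exact hD p hp (hq2 p hp hpd)
      · intro v w hw i hi j hj k hk l hl hij hik hil hjk hjl hkl
        have h1 := hCR6 K (spl f) v w hw (2 * h + 2) α hdata.inj T (fJ J) g' hg1 hg2 hmap e he
          i hi j hj k hk l hl hij hik hil hjk hjl hkl
        refine h1.trans ?_
        have h3 : (0 : ℤ) ≤ (Ideal.ramificationIdx' v.asIdeal w.asIdeal : ℕ) := by positivity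
        have h4 := h2nn v
        have h6 : (g' : ℤ) ≤ h := by exact_mod_cast hgh
        have h5 : ((discExp g' (C e * fJ J) v : ℤ) + (4 * g' + 4) * ord (v.valuation K) (2 : K)) ≤
            ((discExp g' (C e * fJ J) v : ℤ) + (4 * h + 8) * ord (v.valuation K) (2 : K)) := by
          nlinarith
        have := mul_le_mul_of_nonneg_left h5 h3
        linarith
  choose! d hd1 hd2 hd3 using hcur
  have hloc : ∀ v, discExp h f v ≠ 0 → (discExp h f v : ℤ) ≤ (2 * h + 1) * (h + 3) +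
      ord (v.valuation K) ((cF h : ℕ) : K) + bF h * ∑ T ∈ 𝒯, (d T v : ℤ) := by
    intro v _
    obtain ⟨w, hw⟩ := exists_place_above (K := K) (L := spl f) v
    exact hASML K (spl f) h hh f hf hfd v w hw a hdata.a0 α hdata.inj hdata.split 𝒯 hsee
      (fun T => d T v) (fun T hT i hi j hj k hk l hl => hd3 T hT v w hw i hi j hj k hk l hl)
  have hglob := hASMG K h hh f hf (Finset (Fin (2 * h + 2))) 𝒯 d hd1 hloc
  -- the worst set
  have hne : 𝒯.Nonempty := by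
    have h0 : (0 : Fin (2 * h + 2)) ≠ 1 := by
      intro h1
      have := congrArg Fin.val h1
      simp only [Fin.val_zero, Fin.val_one] at this
      omega
    obtain ⟨T, hT, -⟩ := hsee {0, 1} (by rw [Finset.card_pair h0]) (by
      rw [Finset.card_compl, Finset.card_pair h0, Fintype.card_fin]
      omega)
    exact ⟨T, hT⟩
  obtain ⟨T, hT, hmax⟩ := 𝒯.exists_max_image (fun T => GR.PP (d T)) hne
  have hPP1 : 1 ≤ GR.PP (d T) := GR.PP_pos _ (hd1 T hT)
  have hprod : ∏ T ∈ 𝒯, GR.PP (d T) ≤ GR.PP (d T) ^ (2 ^ (2 * h + 2)) := by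
    calc ∏ T ∈ 𝒯, GR.PP (d T) ≤ ∏ _T ∈ 𝒯, GR.PP (d T) := Finset.prod_le_prod' hmax
      _ = GR.PP (d T) ^ 𝒯.card := by rw [Finset.prod_const]
      _ ≤ GR.PP (d T) ^ (2 ^ (2 * h + 2)) := by
        apply Nat.pow_le_pow_right hPP1
        refine (Finset.card_le_univ _).trans ?_
        rw [Fintype.card_finset, Fintype.card_fin]
  have hfinal := arith_A h (Module.finrank ℚ K) (MC h f) (GR.PP (d T)) (DeltaC h f) hMC1 hPP1
    (hglob.trans (Nat.mul_le_mul_left _ (Nat.pow_le_pow_left hprod _)))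
  rcases hd2 T hT with ⟨W, h1, h2, h3, h4, h5⟩ | ⟨g', f', h1, h2, h3, h4, h5, h6, h7, h8, h9⟩
  · refine Or.inl ⟨W, h1, h2, h3, arith_B h _ _ _ _ h4, ?_⟩
    rw [h5] at hfinal
    exact hfinal
  · refine Or.inr ⟨g', f', h1, h2, h3, h4, h5, h6, h7, arith_B h _ _ _ _ h8, ?_⟩
    rw [h9] at hfinal
    exact hfinal

/-- The first part of the theorem. -/
theorem main_one (hCOMB : S_COMB) (hTMC : S_TMC) (hTME : S_TME) (hCR6 : S_CR6) (hCR4 : S_CR4)
    (hASML : S_ASML) (hASMG : S_ASMG) (hFAC : S_FAC) (hFLIP : S_FLIP) (hT2 : S_T2) (h : ℕ)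
    (hh : 1 ≤ h) : ∃ A : ℕ, ∀ D : ℕ, 1 ≤ D → ∀ (K : Type) [Field K] [NumberField K] (f : K[X]),
      IsHyperelliptic h f → (∀ p : K[X], Irreducible p → p ∣ f → p.natDegree ≤ D) →
      Concl A D h K f := by
  refine ⟨cA h, fun D hD1 K _ _ f hf hD => ?_⟩
  obtain ⟨t, ht⟩ := exists_nonroot h f hf
  have hle : f.natDegree ≤ 2 * h + 2 := by have := hf.2; omega
  have hf0 : f ≠ 0 := by
    rintro rfl
    exact not_separable_zero hf.1
  have := main_even hCOMB hTMC hTME hCR6 hCR4 hASML hASMG hFAC hT2 h D hh K (flip h t f)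
    (flip_hyper h hh t f hf) (flip_natDegree h t f hle ht) (hFLIP K h D f t hf0 hle hD1 hD)
  unfold Concl at this ⊢
  rw [DeltaC_flip h t f hle, MC_flip h t f hle] at this
  exact this

end Pool.Agent.Lib.MP_ca2859_nt.FF
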