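import Pool.Agent.Lib.MP_ca2859_nt.FF.Asm
import Pool.Agent.Lib.MP_ca2859_nt.GR.GB.GB17

/-!
# Fixed field theorem: one genus decides all products of quadratics
-/

open Polynomial WithZero IsDedekindDomain NumberField
open Pool.Agent.Lib.MP_ca2859_nt Pool.Agent.Lib.MP_ca2859_nt.GR

namespace Pool.Agent.Lib.MP_ca2859_nt.FF

theorem arith_C (A A' n d m me mc' dc de dc' : ℕ) (hA : 1 ≤ A) (hA' : 1 ≤ A')
    (hd : 1 ≤ d) (hm : 1 ≤ m) (hdc' : 1 ≤ dc')
    (h1 : me ≤ A ^ n * d * m) (h2 : dc ≤ (A ^ n * m * de) ^ A) (h3 : mc' ≤ A' ^ n * me)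
    (h4 : de ≤ A' ^ n * me ^ 20 * dc' ^ 4) :
    mc' ≤ (A ^ 21 * A' + 21 * A) ^ n * d * m ∧
    dc ≤ ((A ^ 21 * A' + 21 * A) ^ n * d * m * dc') ^ (A ^ 21 * A' + 21 * A) := by
  set B := A ^ 21 * A' + 21 * A with hB
  have hAn : 1 ≤ A ^ n := Nat.one_le_pow _ _ hA
  have hAn' : 1 ≤ A' ^ n := Nat.one_le_pow _ _ hA'
  have hB1 : A ^ 21 * A' ≤ B := Nat.le_add_right _ _
  have hB2 : 21 * A ≤ B := Nat.le_add_left _ _
  have hB3 : (A ^ 21 * A') ^ n ≤ B ^ n := Nat.pow_le_pow_left hB1 n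
  have hAA : A * A' ≤ A ^ 21 * A' := Nat.mul_le_mul_right _ (Nat.le_self_pow (by norm_num) A)
  refine ⟨?_, ?_⟩
  · calc mc' ≤ A' ^ n * me := h3
      _ ≤ A' ^ n * (A ^ n * d * m) := Nat.mul_le_mul_left _ h1
      _ = (A * A') ^ n * d * m := by rw [mul_pow]; ring
      _ ≤ B ^ n * d * m := by
        refine Nat.mul_le_mul_right _ (Nat.mul_le_mul_right _ (Nat.pow_le_pow_left ?_ n))
        exact hAA.trans hB1
  · set X := B ^ n * d * m * dc' with hX
    have hX1 : 1 ≤ X := by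
      have : 1 ≤ B ^ n := Nat.one_le_pow _ _ (by omega)
      exact Nat.mul_pos (Nat.mul_pos (Nat.mul_pos this hd) hm) hdc'
    have h5 : A ^ n * m * de ≤ X ^ 21 := by
      calc A ^ n * m * de ≤ A ^ n * m * (A' ^ n * (A ^ n * d * m) ^ 20 * dc' ^ 4) := by
            refine Nat.mul_le_mul_left _ (h4.trans ?_)
            exact Nat.mul_le_mul_right _ (Nat.mul_le_mul_left _ (Nat.pow_le_pow_left h1 20))
        _ = (A ^ 21 * A') ^ n * (d ^ 20 * m ^ 21 * dc' ^ 4) := by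
            have e1 : (A ^ 21 * A') ^ n = (A ^ n) ^ 21 * A' ^ n := by
              rw [mul_pow, ← pow_mul, ← pow_mul, mul_comm 21 n]
            rw [e1]
            ring
        _ ≤ (B ^ n) ^ 21 * (d ^ 21 * m ^ 21 * dc' ^ 21) := by
            refine Nat.mul_le_mul ?_ ?_
            · exact hB3.trans (Nat.le_self_pow (by norm_num) _)
            · refine Nat.mul_le_mul (Nat.mul_le_mul_right _ ?_) ?_
              · exact Nat.pow_le_pow_right hd (by norm_num)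
              · exact Nat.pow_le_pow_right hdc' (by norm_num)
        _ = X ^ 21 := by rw [hX]; ring
    calc dc ≤ (A ^ n * m * de) ^ A := h2
      _ ≤ (X ^ 21) ^ A := Nat.pow_le_pow_left h5 A
      _ = X ^ (21 * A) := by rw [← pow_mul]
      _ ≤ X ^ B := Nat.pow_le_pow_right hX1 hB2

/-- one genus decides all products of quadratics -/
theorem main_genus (hone : ∀ h : ℕ, 1 ≤ h → ∃ A : ℕ, ∀ D : ℕ, 1 ≤ D → ∀ (K : Type) [Field K]
      [NumberField K] (f : K[X]), IsHyperelliptic h f →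
      (∀ p : K[X], Irreducible p → p ∣ f → p.natDegree ≤ D) → Concl A D h K f)
    (hG2 : S_G2A) (g h : ℕ) (hg : 2 ≤ g) (hh : 1 ≤ h) :
    ∃ B : ℕ, ∀ (K : Type) [Field K] [NumberField K] (f : K[X]), IsHyperelliptic h f →
      (∀ p : K[X], Irreducible p → p ∣ f → p.natDegree ≤ 2) →
      ∃ f' : K[X], IsHyperelliptic g f' ∧
        MC g f' ≤ B ^ Module.finrank ℚ K * (discr K).natAbs * MC h f ∧
        DeltaC h f ≤ (B ^ Module.finrank ℚ K * (discr K).natAbs * MC h f * DeltaC g f') ^ B := by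
  obtain ⟨A, hA⟩ := hone h hh
  obtain ⟨A', hA'⟩ : ∃ A' : ℕ, ∀ (K : Type) [Field K] [NumberField K]
      (W : WeierstrassCurve K), W.Δ ≠ 0 → (∃ x : K, W.twoTorsionPolynomial.toPoly.IsRoot x) →
      ∃ f : K[X], IsHyperelliptic g f ∧ MC g f ≤ A' ^ Module.finrank ℚ K * ME W ∧
      DeltaE W ≤ A' ^ Module.finrank ℚ K * ME W ^ 20 * DeltaC g f ^ 4 := by
    rcases hg.lt_or_eq with h3 | h3
    · obtain ⟨A', hA'⟩ := GB.main_GB g h3
      exact ⟨A', fun K _ _ W hW _ => hA' K W hW⟩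
    · subst h3
      exact hG2
  refine ⟨(A + 1) ^ 21 * (A' + 1) + 21 * (A + 1), fun K _ _ f hf hD => ?_⟩
  have hMC : 1 ≤ MC h f := by rw [MC_eq_PR]; exact PR_pos _ (finite_bad h f hf)
  rcases hA 2 (by norm_num) K f hf hD with ⟨W, hΔ, hx, -, h1, h2⟩ | ⟨g', f', h1, -, h3, -⟩
  · obtain ⟨f', hf', h3, h4⟩ := hA' K W hΔ (hx le_rfl)
    have hDC : 1 ≤ DeltaC g f' := by
      rw [DeltaC_eq_PP]; exact GR.PP_pos _ (finite_bad g f' hf')
    refine ⟨f', hf', ?_⟩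
    refine arith_C (A + 1) (A' + 1) (Module.finrank ℚ K) (discr K).natAbs (MC h f) (ME W)
      (MC g f') (DeltaC h f) (DeltaE W) (DeltaC g f') (by omega) (by omega)
      (one_le_discr K) hMC hDC ?_ ?_ ?_ ?_
    · exact h1.trans (Nat.mul_le_mul_right _ (Nat.mul_le_mul_right _
        (Nat.pow_le_pow_left (Nat.le_succ A) _)))
    · have h5 : DeltaC h f ≤ ((A + 1) ^ Module.finrank ℚ K * MC h f * DeltaE W) ^ A :=
        h2.trans (Nat.pow_le_pow_left (Nat.mul_le_mul_right _ (Nat.mul_le_mul_right _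
          (Nat.pow_le_pow_left (Nat.le_succ A) _))) A)
      refine h5.trans (Nat.pow_le_pow_right ?_ (Nat.le_succ A))
      have h6 : 1 ≤ DeltaE W := by
        rw [DeltaE_eq_PP]; exact GR.PP_pos _ (finite_badE W hΔ)
      exact Nat.mul_pos (Nat.mul_pos (Nat.one_le_pow _ _ (by omega)) hMC) h6
    · exact h3.trans (Nat.mul_le_mul_right _ (Nat.pow_le_pow_left (Nat.le_succ A') _))
    · exact h4.trans (Nat.mul_le_mul_right _ (Nat.mul_le_mul_right _
        (Nat.pow_le_pow_left (Nat.le_succ A') _)))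
  · omega

end Pool.Agent.Lib.MP_ca2859_nt.FF
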